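import Mathlib
import Pool.Agent.W806.BM.AP1
import Pool.Agent.N772.FU.Fin

/-!
# The size of monic centred polynomials
-/

set_option autoImplicit false

open Polynomial Filter Metric Topology Set
open Pool.Agent.H713R3.ZA

namespace Pool.Agent.N772.CL

/-- the parameters -/
abbrev Par (d : ℕ) : Type := (Fin (d - 2) → ℂ) × ℂ

/-- the polynomial -/
noncomputable def pol (d : ℕ) (x : Par d) : ℂ[X] :=
  X ^ d + ∑ i : Fin (d - 2), C (x.1 i) * X ^ (i.1 + 1) + C x.2

/-- the polynomial as a map -/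
def Q (d : ℕ) (x : Par d) : ℂ → ℂ := fun z => z ^ d + ∑ i, x.1 i * z ^ (i.1 + 1) + x.2

/-- the derivative -/
def dQ (d : ℕ) (x : Par d) : ℂ → ℂ :=
  fun z => d * z ^ (d - 1) + ∑ i : Fin (d - 2), x.1 i * ((i.1 + 1) * z ^ i.1)

theorem eval_pol (d : ℕ) (x : Par d) (z : ℂ) : (pol d x).eval z = Q d x z := by
  unfold pol Q
  rw [eval_add, eval_add, eval_pow, eval_X, eval_finsetSum, eval_C]
  simp

theorem hasDerivAt_Q (d : ℕ) (x : Par d) (z : ℂ) : HasDerivAt (Q d x) (dQ d x z) z := by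
  unfold Q dQ
  refine HasDerivAt.add_const _ ?_
  refine (hasDerivAt_pow d z).add ?_
  refine HasDerivAt.fun_sum fun i _ => ?_
  have h1 := (hasDerivAt_pow (i.1 + 1) z).const_mul (x.1 i)
  rw [Nat.add_sub_cancel] at h1
  have h2 : x.1 i * (((i.1 + 1 : ℕ) : ℂ) * z ^ i.1) = x.1 i * (((i.1 : ℂ) + 1) * z ^ i.1) := by
    push_cast
    ring
  rw [h2] at h1
  exact h1

theorem deriv_Q (d : ℕ) (x : Par d) (z : ℂ) : deriv (Q d x) z = dQ d x z :=
  (hasDerivAt_Q d x z).deriv

theorem eval_der (d : ℕ) (x : Par d) (z : ℂ) : (derivative (pol d x)).eval z = dQ d x z := by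
  have h1 := (pol d x).hasDerivAt z
  have h2 : (fun z => (pol d x).eval z) = Q d x := funext fun z => eval_pol d x z
  rw [h2] at h1
  exact h1.unique (hasDerivAt_Q d x z)

theorem Q_diff (d : ℕ) (x : Par d) : Differentiable ℂ (Q d x) := fun z =>
  (hasDerivAt_Q d x z).differentiableAt

theorem Q_cont (d : ℕ) : Continuous fun y : Par d × ℂ => Q d y.1 y.2 := by
  unfold Q
  fun_prop

theorem dQ_cont (d : ℕ) : Continuous fun y : Par d × ℂ => dQ d y.1 y.2 := by
  unfold dQ
  fun_prop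

theorem coeff_sum {d : ℕ} (x : Par d) (j : ℕ) :
    (∑ i : Fin (d - 2), C (x.1 i) * X ^ (i.1 + 1) : ℂ[X]).coeff j =
      if h : 1 ≤ j ∧ j < d - 1 then x.1 ⟨j - 1, by omega⟩ else 0 := by
  rw [finsetSum_coeff]
  split_ifs with h
  · rw [Finset.sum_eq_single (⟨j - 1, by omega⟩ : Fin (d - 2))]
    · rw [coeff_C_mul_X_pow, if_pos]
      show j = j - 1 + 1
      omega
    · intro i _ hi
      rw [coeff_C_mul_X_pow, if_neg]
      intro h1
      apply hi
      apply Fin.ext
      show i.1 = j - 1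
      omega
    · intro h1
      exact absurd (Finset.mem_univ _) h1
  · refine Finset.sum_eq_zero fun i _ => ?_
    have hi := i.2
    rw [coeff_C_mul_X_pow, if_neg]
    intro h1
    apply h
    omega

theorem coeff_pol {d : ℕ} (hd : 2 ≤ d) (x : Par d) (j : ℕ) : (pol d x).coeff j =
    (if j = d then 1 else 0) + (if h : 1 ≤ j ∧ j < d - 1 then x.1 ⟨j - 1, by omega⟩ else 0) +
      (if j = 0 then x.2 else 0) := by
  unfold pol
  rw [coeff_add, coeff_add, coeff_X_pow, coeff_sum, coeff_C]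

theorem monic_pol {d : ℕ} (hd : 2 ≤ d) (x : Par d) : (pol d x).natDegree = d ∧
    (pol d x).leadingCoeff = 1 := by
  have h1 : (pol d x).coeff d = 1 := by
    rw [coeff_pol hd, if_pos rfl, dif_neg (by omega), if_neg (by omega)]
    simp
  have h2 : (pol d x).natDegree ≤ d := by
    rw [natDegree_le_iff_coeff_eq_zero]
    intro N hN
    rw [coeff_pol hd, if_neg (by omega), dif_neg (by omega), if_neg (by omega)]
    simp
  have h3 : (pol d x).natDegree = d :=
    le_antisymm h2 (le_natDegree_of_ne_zero (by rw [h1]; exact one_ne_zero))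
  refine ⟨h3, ?_⟩
  unfold leadingCoeff
  rw [h3, h1]

theorem exists_fin (n : ℕ) (s : Multiset ℂ) (hs : Multiset.card s = n) :
    ∃ c : Fin n → ℂ, s = Finset.univ.val.map c := by
  subst hs
  obtain ⟨l, rfl⟩ := Quot.exists_rep s
  refine ⟨fun i => l.get i, ?_⟩
  show (l : Multiset ℂ) = _
  rw [Fin.univ_val_map]
  congr 1
  exact (List.ofFn_get l).symm

/-- the critical points -/
theorem crit_list {d : ℕ} (hd : 2 ≤ d) (x : Par d) : ∃ c : Fin (d - 1) → ℂ,
    derivative (pol d x) = C (d : ℂ) * ∏ i, (X - C (c i)) ∧ ∑ i, c i = 0 := by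
  obtain ⟨h1, h2⟩ := monic_pol hd x
  have hd0 : (d : ℂ) ≠ 0 := by exact_mod_cast (by omega : d ≠ 0)
  have h3 : (derivative (pol d x)).coeff (d - 1) = d := by
    rw [coeff_derivative, show d - 1 + 1 = d by omega]
    have : (pol d x).coeff d = 1 := by
      have := h2
      unfold leadingCoeff at this
      rwa [h1] at this
    rw [this, one_mul]
    push_cast [Nat.cast_sub (show 1 ≤ d by omega)]
    ring
  have h4 : (derivative (pol d x)).natDegree = d - 1 := by
    apply le_antisymm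
    · have := natDegree_derivative_le (pol d x)
      omega
    · apply le_natDegree_of_ne_zero
      rw [h3]
      exact hd0
  have h5 : (derivative (pol d x)).leadingCoeff = d := by
    unfold leadingCoeff
    rw [h4, h3]
  have h6 := IsAlgClosed.splits (derivative (pol d x))
  have h7 : Multiset.card (derivative (pol d x)).roots = d - 1 := by
    rw [← h4]
    exact (h6.natDegree_eq_card_roots).symm
  obtain ⟨c, hc⟩ := exists_fin (d - 1) _ h7
  have h8 : derivative (pol d x) = C (d : ℂ) * ∏ i, (X - C (c i)) := by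
    have := h6.eq_prod_roots
    rw [h5, hc, Multiset.map_map] at this
    exact this
  refine ⟨c, h8, ?_⟩
  -- the sum of the critical points
  have h9 : (∏ i, (X - C (c i)) : ℂ[X]).coeff (d - 1 - 1) = -∑ i, c i := by
    have e1 := prod_X_sub_C_nextCoeff (s := Finset.univ) (c : Fin (d - 1) → ℂ)
    have e2 : (∏ i, (X - C (c i)) : ℂ[X]).natDegree = d - 1 := by
      rw [natDegree_prod_of_monic _ _ fun i _ => monic_X_sub_C _]
      simp
    rw [nextCoeff_of_natDegree_pos (by omega), e2] at e1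
    exact e1
  have h10 : (derivative (pol d x)).coeff (d - 1 - 1) = 0 := by
    rw [coeff_derivative, coeff_pol hd, if_neg (by omega), dif_neg (by omega), if_neg (by omega)]
    simp
  rw [h8, coeff_C_mul, h9] at h10
  rcases mul_eq_zero.1 h10 with h11 | h11
  · exact absurd h11 hd0
  · exact neg_eq_zero.1 h11

theorem dQ_prod {d : ℕ} {x : Par d} {c : Fin (d - 1) → ℂ}
    (h : derivative (pol d x) = C (d : ℂ) * ∏ i, (X - C (c i))) (z : ℂ) :
    dQ d x z = d * ∏ i, (z - c i) := by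
  rw [← eval_der, h, eval_mul, eval_C, eval_prod]
  simp

/-- the parameter of the library -/
theorem fam_eq_pol {d : ℕ} (hd : 2 ≤ d) (x : Par d) {c : Fin (d - 1) → ℂ}
    (h : derivative (pol d x) = C (d : ℂ) * ∏ i, (X - C (c i))) :
    fam 1 (d - 1) (fun o => o.elim x.2 c) = pol d x := by
  apply Pool.Agent.W806.BM.poly_eq (z := 0)
  · rw [derivative_fam, h]
    unfold dfam
    congr 2
    push_cast [Nat.cast_sub (show 1 ≤ d by omega)]
    ring
  · rw [← coeff_zero_eq_eval_zero, coeff_fam_zero, ← coeff_zero_eq_eval_zero, coeff_pol hd,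
      if_neg (by omega), dif_neg (by omega), if_pos rfl]
    simp

/-- the size -/
theorem size {d : ℕ} (hd : 2 ≤ d) : ∃ (c₁ C₁ : ℝ), 0 < c₁ ∧ 1 ≤ C₁ ∧ ∀ x : Par d, ∃ s : ℝ, 0 ≤ s ∧
    (∃ ω, dQ d x ω = 0 ∧ c₁ * s ^ d ≤ ‖Q d x ω‖) ∧
    (∀ u, C₁ * s ≤ ‖u‖ → 1 / 2 * ‖u‖ ^ d ≤ ‖Q d x u‖) ∧
    (∀ ω, dQ d x ω = 0 → ‖ω‖ ≤ s) ∧ ‖x.2‖ ≤ s ^ d := by
  obtain ⟨c₁, hc₁, H₁⟩ := Pool.Agent.W806.BM.exists_c1 (a := 1) one_ne_zero
    (n := d - 1) (by omega)
  obtain ⟨C₁, hC₁, H₂⟩ := Pool.Agent.W806.BM.exists_C1 (a := 1) one_ne_zero (d - 1)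
  have hd0 : (d : ℂ) ≠ 0 := by exact_mod_cast (by omega : d ≠ 0)
  refine ⟨c₁, C₁, hc₁, hC₁, fun x => ?_⟩
  obtain ⟨c, hc, hsum⟩ := crit_list hd x
  have hfam := fam_eq_pol hd x hc
  obtain ⟨y, hy⟩ : ∃ y : PE (d - 1), y = fun o => o.elim x.2 c := ⟨_, rfl⟩
  rw [← hy] at hfam
  have hfx : ∀ z, fx 1 (d - 1) y z = Q d x z := by
    intro z
    unfold fx
    rw [hfam, eval_pol]
  have hyc : ∀ i, y (some i) = c i := fun i => by rw [hy]; rfl
  have hyn : y none = x.2 := by rw [hy]; rfl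
  have hcrit : ∀ ω, dQ d x ω = 0 → ∃ i, ω = c i := by
    intro ω hω
    rw [dQ_prod hc] at hω
    rcases mul_eq_zero.1 hω with h1 | h1
    · exact absurd h1 hd0
    · obtain ⟨i, -, hi⟩ := Finset.prod_eq_zero_iff.1 h1
      exact ⟨i, sub_eq_zero.1 hi⟩
  have hcrit' : ∀ i, dQ d x (c i) = 0 := by
    intro i
    rw [dQ_prod hc, Finset.prod_eq_zero (Finset.mem_univ i) (sub_self _), mul_zero]
  have hdd : d - 1 + 1 = d := by omega
  by_cases h0 : y = 0
  · have hc0 : ∀ i, c i = 0 := fun i => by rw [← hyc, h0]; rfl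
    have hx0 : x.2 = 0 := by rw [← hyn, h0]; rfl
    refine ⟨0, le_rfl, ⟨c ⟨0, by omega⟩, hcrit' _, ?_⟩, ?_, ?_, ?_⟩
    · rw [zero_pow (by omega), mul_zero]
      exact norm_nonneg _
    · intro u _
      -- the map is `z ^ d`
      have h1 := H₂ 0 (by simp)
      rcases le_or_gt C₁ ‖u‖ with h2 | h2
      · have h3 := h1 u h2
        rw [← h0, hfx, norm_one, hdd] at h3
        exact h3
      · -- scaling
        rcases eq_or_ne u 0 with h3 | h3
        · rw [h3, norm_zero, zero_pow (by omega), mul_zero]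
          exact norm_nonneg _
        · have hu : 0 < ‖u‖ := norm_pos_iff.2 h3
          have hsc : Pool.Agent.W806.BM.sc (‖u‖ / C₁) (0 : PE (d - 1)) = 0 := by
            funext k
            cases k with
            | some i => simp [Pool.Agent.W806.BM.sc]
            | none => simp [Pool.Agent.W806.BM.sc]
          have h4 := Pool.Agent.W806.BM.fx_far (a := 1) (n := d - 1) H₂ (s := ‖u‖ / C₁)
            (by positivity) (y := 0) (by simp) (u := u) (by
              rw [mul_div_cancel₀ _ (by linarith)])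
          rw [hsc, ← h0, hfx, norm_one, hdd] at h4
          exact h4
    · intro ω hω
      obtain ⟨i, rfl⟩ := hcrit ω hω
      rw [hc0, norm_zero]
    · rw [hx0, norm_zero, zero_pow (by omega)]
  · obtain ⟨s, hs, y', hy', hyy⟩ := Pool.Agent.W806.BM.polar y h0
    have hci : ∀ i, c i = (s : ℂ) * y' (some i) := fun i => by
      rw [← hyc, hyy]
      rfl
    have hxn : x.2 = (s : ℂ) ^ d * y' none := by
      rw [← hyn, hyy]
      show (s : ℂ) ^ (d - 1 + 1) * y' none = _
      rw [hdd]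
    have hsc : (s : ℂ) ≠ 0 := by exact_mod_cast hs.ne'
    have hsn : ‖(s : ℂ)‖ = s := by rw [Complex.norm_real, Real.norm_of_nonneg hs.le]
    have hcomp : ∀ k, ‖y' k‖ ≤ 1 := fun k => (norm_le_pi_norm y' k).trans hy'.le
    refine ⟨s, hs.le, ?_, ?_, ?_, ?_⟩
    · obtain ⟨i, hi⟩ := H₁ y' hy' (by
        have h1 : (s : ℂ) * ∑ i, y' (some i) = 0 := by
          rw [Finset.mul_sum, ← hsum]
          exact Finset.sum_congr rfl fun i _ => (hci i).symm
        exact (mul_eq_zero.1 h1).resolve_left hsc)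
      refine ⟨c i, hcrit' i, ?_⟩
      have h1 := Pool.Agent.W806.BM.fx_sc 1 (d - 1) s y' (y' (some i))
      rw [← hyy, hfx, ← hci, hdd] at h1
      rw [h1, norm_mul, norm_pow, hsn, mul_comm]
      gcongr
    · intro u hu
      have h1 := Pool.Agent.W806.BM.fx_far (a := 1) (n := d - 1) H₂ hs (y := y') hy'.le (u := u) hu
      rw [← hyy, hfx, norm_one, hdd] at h1
      exact h1
    · intro ω hω
      obtain ⟨i, rfl⟩ := hcrit ω hω
      rw [hci, norm_mul, hsn]
      exact mul_le_of_le_one_right hs.le (hcomp _)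
    · rw [hxn, norm_mul, norm_pow, hsn]
      exact mul_le_of_le_one_right (by positivity) (hcomp _)

/-- bounded critical points and constant term give bounded coefficients -/
theorem par_bd {d : ℕ} (hd : 2 ≤ d) (B : ℝ) : ∃ A : ℝ, 1 ≤ A ∧ ∀ x : Par d,
    (∀ ω, dQ d x ω = 0 → ‖ω‖ ≤ B) → ‖x.2‖ ≤ B → ‖x‖ ≤ A := by
  obtain ⟨A, hA, H⟩ := exists_coeff_bound 1 (d - 1) B
  refine ⟨A, hA, fun x h1 h2 => ?_⟩
  obtain ⟨c, hc, -⟩ := crit_list hd x
  have hfam := fam_eq_pol hd x hc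
  have hB : 0 ≤ B := (norm_nonneg _).trans h2
  have h3 := H (fun o => o.elim x.2 c) (by
    rw [pi_norm_le_iff_of_nonneg hB]
    intro k
    cases k with
    | some i =>
      apply h1
      rw [dQ_prod hc, Finset.prod_eq_zero (Finset.mem_univ i) (sub_self _), mul_zero]
    | none => exact h2)
  rw [hfam] at h3
  rw [Prod.norm_def, max_le_iff]
  constructor
  · rw [pi_norm_le_iff_of_nonneg (by linarith)]
    intro i
    have hi := i.2
    have h4 := h3 (i.1 + 1)
    rw [coeff_pol hd, if_neg (by omega), dif_pos ⟨by omega, by omega⟩, if_neg (by omega)] at h4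
    simpa using h4
  · have h4 := h3 0
    rw [coeff_pol hd, if_neg (by omega), dif_neg (by omega), if_pos rfl] at h4
    simpa using h4

/-- **Isolation.** -/
theorem isolated {d : ℕ} (hd : 2 ≤ d) : ∃ B : ℝ, 1 ≤ B ∧ ∀ (x : Par d) (h : ℂ → ℂ) (S : ℝ),
    (∀ z : ℂ, ‖z‖ ≤ S → ‖h z - Q d x z‖ ≤ 1) →
    (∀ ω, dQ d x ω = 0 → ∀ j, ‖h^[j] ω‖ ≤ S) →
    ‖x‖ ≤ B ∧ ∀ ω, dQ d x ω = 0 → ∀ j, ‖h^[j] ω‖ ≤ B := by
  obtain ⟨c₁, C₁, hc₁, hC₁, H⟩ := size (d := d) hd
  obtain ⟨K, hK⟩ : ∃ K : ℝ, K = C₁ ^ d / c₁ + 2 := ⟨_, rfl⟩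
  have hK2 : 2 ≤ K := by
    rw [hK]
    have : 0 ≤ C₁ ^ d / c₁ := by positivity
    linarith
  obtain ⟨s₀, hs₀⟩ : ∃ s₀ : ℝ, s₀ = max 1 ((8 * K + 1) / c₁) := ⟨_, rfl⟩
  have hs₀1 : 1 ≤ s₀ := by rw [hs₀]; exact le_max_left _ _
  obtain ⟨A, hA1, hA⟩ := par_bd (d := d) hd (max s₀ ((8 * K + 1) / c₁))
  refine ⟨max A (8 * K), hA1.trans (le_max_left _ _), fun x h S hh horb => ?_⟩
  obtain ⟨s, hs, ⟨ω₀, hω₀, hω₀'⟩, hfar, hcr, hx2⟩ := H x
  have hS0 : 0 ≤ S := (norm_nonneg _).trans (horb ω₀ hω₀ 0)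
  -- one step
  have step : ∀ T : ℝ, 8 * K ≤ T → T ≤ S → (∀ ω, dQ d x ω = 0 → ∀ j, ‖h^[j] ω‖ ≤ T) →
      ∀ ω, dQ d x ω = 0 → ∀ j, ‖h^[j] ω‖ ≤ T / 2 := by
    intro T hT hTS hor ω hω j
    have e1 : ∀ ω, dQ d x ω = 0 → ∀ j, ‖Q d x (h^[j] ω)‖ ≤ T + 1 := by
      intro ω hω j
      have g1 := hor ω hω (j + 1)
      rw [Function.iterate_succ_apply'] at g1
      have g2 := hh (h^[j] ω) ((hor ω hω j).trans hTS)
      have g3 := norm_le_norm_add_norm_sub' (Q d x (h^[j] ω)) (h (h^[j] ω))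
      rw [norm_sub_rev] at g2
      linarith
    have e2 : c₁ * s ^ d ≤ T + 1 := hω₀'.trans (e1 ω₀ hω₀ 0)
    have e3 : ‖h^[j] ω‖ ^ d ≤ K * (T + 1) := by
      rcases le_or_gt (C₁ * s) ‖h^[j] ω‖ with g1 | g1
      · have g2 := (hfar _ g1).trans (e1 ω hω j)
        have g3 : 2 * (T + 1) ≤ K * (T + 1) := by
          gcongr
          linarith
        linarith
      · calc ‖h^[j] ω‖ ^ d ≤ (C₁ * s) ^ d := by gcongr
          _ = C₁ ^ d / c₁ * (c₁ * s ^ d) := by
              rw [mul_pow]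
              field_simp
          _ ≤ C₁ ^ d / c₁ * (T + 1) := by gcongr
          _ ≤ K * (T + 1) := by
              gcongr
              · linarith
              · rw [hK]
                linarith
    have e4 : K * (T + 1) ≤ (T / 2) ^ 2 := by nlinarith
    have e5 : (T / 2) ^ 2 ≤ (T / 2) ^ d := pow_le_pow_right₀ (by linarith) hd
    exact le_of_pow_le_pow_left₀ (by omega) (by linarith) ((e3.trans e4).trans e5)
  -- the bound of the orbits
  have hbd : ∀ ω, dQ d x ω = 0 → ∀ j, ‖h^[j] ω‖ ≤ 8 * K := by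
    rcases le_or_gt S (8 * K) with hSK | hSK
    · intro ω hω j
      exact (horb ω hω j).trans hSK
    · have hall : ∀ k : ℕ, ∀ ω, dQ d x ω = 0 → ∀ j, ‖h^[j] ω‖ ≤ max (S / 2 ^ k) (8 * K) := by
        intro k
        induction k with
        | zero =>
          intro ω hω j
          rw [pow_zero, div_one]
          exact (horb ω hω j).trans (le_max_left _ _)
        | succ k ih =>
          intro ω hω j
          have g1 := step (max (S / 2 ^ k) (8 * K)) (le_max_right _ _)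
            (max_le (div_le_self hS0 (one_le_pow₀ (by norm_num))) hSK.le) ih ω hω j
          refine g1.trans ?_
          rcases max_cases (S / 2 ^ k) (8 * K) with g2 | g2
          · rw [g2.1]
            refine le_trans (le_of_eq ?_) (le_max_left _ _)
            rw [pow_succ]
            field_simp
          · rw [g2.1]
            refine le_trans ?_ (le_max_right _ _)
            linarith
      obtain ⟨k, hk⟩ := pow_unbounded_of_one_lt (S / (8 * K)) (show (1 : ℝ) < 2 by norm_num)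
      have hk' : S / 2 ^ k ≤ 8 * K := by
        rw [div_lt_iff₀ (by linarith)] at hk
        rw [div_le_iff₀ (by positivity)]
        linarith
      intro ω hω j
      have := hall k ω hω j
      rwa [max_eq_right hk'] at this
  refine ⟨?_, fun ω hω j => (hbd ω hω j).trans (le_max_right _ _)⟩
  have e1 : ‖Q d x ω₀‖ ≤ 8 * K + 1 := by
    have g1 := hbd ω₀ hω₀ 1
    rw [Function.iterate_one] at g1
    have g2 := hh ω₀ (horb ω₀ hω₀ 0)
    have g3 := norm_le_norm_add_norm_sub' (Q d x ω₀) (h ω₀)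
    rw [norm_sub_rev] at g2
    linarith
  have e2 : s ^ d ≤ (8 * K + 1) / c₁ := by
    rw [le_div_iff₀ hc₁, mul_comm]
    linarith
  have e3 : s ≤ s₀ := by
    rcases le_or_gt s 1 with g1 | g1
    · exact g1.trans hs₀1
    · rw [hs₀]
      exact ((le_self_pow₀ g1.le (by omega)).trans e2).trans (le_max_right _ _)
  exact (hA x (fun ω hω => ((hcr ω hω).trans e3).trans (le_max_left _ _))
    ((hx2.trans e2).trans (le_max_right _ _))).trans (le_max_left _ _)

end Pool.Agent.N772.CL
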