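import Mathlib
import Pool.Agent.N772.CL.Size
import Pool.Agent.N772.FU.Hyp

/-!
# The connectedness locus and nearby maps
-/

set_option autoImplicit false

open Polynomial Filter Metric Topology Set
open Pool.Agent.N772.FU

namespace Pool.Agent.N772.CL

/-- the connectedness locus -/
def locus (d : ℕ) : Set (Par d) :=
  {x | ∀ ω, dQ d x ω = 0 → ∃ B : ℝ, ∀ j : ℕ, ‖(Q d x)^[j] ω‖ ≤ B}

theorem crit_fin {d : ℕ} (hd : 2 ≤ d) (x : Par d) : ∃ c : Fin (d - 1) → ℂ,
    (∀ i, dQ d x (c i) = 0) ∧ (∀ ω, dQ d x ω = 0 → ∃ i, ω = c i) ∧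
      ∀ z, dQ d x z = d * ∏ i, (z - c i) := by
  obtain ⟨c, hc, -⟩ := crit_list hd x
  have hd0 : (d : ℂ) ≠ 0 := by exact_mod_cast (by omega : d ≠ 0)
  refine ⟨c, ?_, ?_, dQ_prod hc⟩
  · intro i
    rw [dQ_prod hc, Finset.prod_eq_zero (Finset.mem_univ i) (sub_self _), mul_zero]
  · intro ω hω
    rw [dQ_prod hc] at hω
    rcases mul_eq_zero.1 hω with h1 | h1
    · exact absurd h1 hd0
    · obtain ⟨i, -, hi⟩ := Finset.prod_eq_zero_iff.1 h1
      exact ⟨i, sub_eq_zero.1 hi⟩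

theorem locus_bdd {d : ℕ} (hd : 2 ≤ d) : ∃ B : ℝ, 1 ≤ B ∧ ∀ x ∈ locus d, ‖x‖ ≤ B := by
  obtain ⟨B, hB, H⟩ := isolated (d := d) hd
  refine ⟨B, hB, fun x hx => ?_⟩
  obtain ⟨c, h1, h2, -⟩ := crit_fin hd x
  choose S hS using fun i => hx (c i) (h1 i)
  refine (H x (Q d x) (∑ i, |S i|) (fun z _ => by rw [sub_self, norm_zero]; exact zero_le_one)
    ?_).1
  intro ω hω j
  obtain ⟨i, rfl⟩ := h2 ω hω
  refine (hS i j).trans ((le_abs_self _).trans ?_)
  exact Finset.single_le_sum (f := fun i => |S i|) (fun _ _ => abs_nonneg _) (Finset.mem_univ i)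

theorem root_near {d : ℕ} (hd : 2 ≤ d) {x₀ : Par d} {ω₀ : ℂ} (h : dQ d x₀ ω₀ = 0) {r : ℝ}
    (hr : 0 < r) : ∀ᶠ x in 𝓝 x₀, ∃ ω, dQ d x ω = 0 ∧ ‖ω - ω₀‖ < r := by
  have hd0 : (0 : ℝ) < d := by exact_mod_cast (by omega : 0 < d)
  have hc : Continuous fun x : Par d => ‖dQ d x ω₀‖ :=
    ((dQ_cont d).comp (continuous_id.prodMk continuous_const)).norm
  have h1 : ∀ᶠ x in 𝓝 x₀, ‖dQ d x ω₀‖ < d * r ^ (d - 1) := by
    apply hc.continuousAt.eventually_lt continuousAt_const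
    rw [h, norm_zero]
    positivity
  filter_upwards [h1] with x hx
  by_contra hcon
  push Not at hcon
  obtain ⟨c, h2, -, h3⟩ := crit_fin hd x
  rw [h3, norm_mul, Complex.norm_natCast, norm_prod] at hx
  have h4 : r ^ (d - 1) ≤ ∏ i, ‖ω₀ - c i‖ := by
    have h5 : ∏ _i : Fin (d - 1), r ≤ ∏ i, ‖ω₀ - c i‖ := by
      apply Finset.prod_le_prod
      · intro i _
        exact hr.le
      · intro i _
        rw [norm_sub_rev]
        exact hcon (c i) (h2 i)
    rwa [Finset.prod_const, Finset.card_univ, Fintype.card_fin] at h5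
  have h5 : (d : ℝ) * r ^ (d - 1) ≤ d * ∏ i, ‖ω₀ - c i‖ := by gcongr
  linarith

/-- **The outer estimate.** -/
theorem outer {d : ℕ} (hd : 2 ≤ d) (B : ℝ) {ε : ℝ} (hε : 0 < ε) : ∃ R η : ℝ, 0 < η ∧
    ∀ x : Par d, ‖x‖ ≤ B → ∀ h : ℂ → ℂ, (∀ z : ℂ, ‖z‖ < R → ‖h z - Q d x z‖ ≤ η) →
      (∀ ω, dQ d x ω = 0 → ∀ j, ‖h^[j] ω‖ ≤ B) → ∃ y ∈ locus d, dist x y < ε := by
  obtain ⟨D, hD⟩ : ∃ D : Set (Par d), D = closedBall 0 B ∩ {x | ∀ y ∈ locus d, ε ≤ dist x y} :=
    ⟨_, rfl⟩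
  have hDc : IsCompact D := by
    rw [hD]
    refine (isCompact_closedBall _ _).inter_right ?_
    have : {x : Par d | ∀ y ∈ locus d, ε ≤ dist x y} = ⋂ y ∈ locus d, {x | ε ≤ dist x y} := by
      ext x
      simp
    rw [this]
    exact isClosed_biInter fun y _ => isClosed_le continuous_const
      (continuous_id.dist continuous_const)
  have key : ∃ R η : ℝ, 0 < η ∧ ∀ x ∈ D, ∀ h : ℂ → ℂ, (∀ z : ℂ, ‖z‖ < R → ‖h z - Q d x z‖ ≤ η) →
      ∃ ω, dQ d x ω = 0 ∧ ∃ j, B < ‖h^[j] ω‖ := by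
    refine hDc.induction_on (p := fun D => ∃ R η : ℝ, 0 < η ∧ ∀ x ∈ D, ∀ h : ℂ → ℂ,
      (∀ z : ℂ, ‖z‖ < R → ‖h z - Q d x z‖ ≤ η) → ∃ ω, dQ d x ω = 0 ∧ ∃ j, B < ‖h^[j] ω‖)
      ?_ ?_ ?_ ?_
    · exact ⟨0, 1, one_pos, fun x hx => absurd hx (notMem_empty x)⟩
    · rintro s t hst ⟨R, η, hη, H⟩
      exact ⟨R, η, hη, fun x hx => H x (hst hx)⟩
    · rintro s t ⟨R₁, η₁, hη₁, H₁⟩ ⟨R₂, η₂, hη₂, H₂⟩
      refine ⟨max R₁ R₂, min η₁ η₂, by positivity, fun x hx h hh => ?_⟩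
      rcases hx with hx | hx
      · exact H₁ x hx h fun z hz => (hh z (hz.trans_le (le_max_left _ _))).trans (min_le_left _ _)
      · exact H₂ x hx h fun z hz => (hh z (hz.trans_le (le_max_right _ _))).trans (min_le_right _ _)
    · intro x hx
      rw [hD] at hx
      have hxl : x ∉ locus d := by
        intro h1
        have := hx.2 x h1
        rw [dist_self] at this
        linarith
      have hun : ∃ ω₀, dQ d x ω₀ = 0 ∧ ∃ j, B + 1 < ‖(Q d x)^[j] ω₀‖ := by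
        by_contra hcon
        push Not at hcon
        exact hxl fun ω hω => ⟨B + 1, fun j => hcon ω hω j⟩
      obtain ⟨ω₀, hω₀, j, hj⟩ := hun
      obtain ⟨R', η', hR', hη', H⟩ := iter_near (Q_diff d x).continuous
        (isCompact_closedBall ω₀ 1) j (1 / 2) (by norm_num)
      have hcj : Continuous ((Q d x)^[j]) := (Q_diff d x).continuous.iterate j
      obtain ⟨r, hr, hrj⟩ := Metric.continuousAt_iff.1 (hcj.continuousAt (x := ω₀)) (1 / 2)
        (by norm_num)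
      have h1 := root_near hd hω₀ (r := min r 1) (by positivity)
      have h2 : ∀ᶠ x' in 𝓝 x, ∀ z ∈ closedBall (0 : ℂ) R', ‖Q d x' z - Q d x z‖ < η' / 2 := by
        apply (isCompact_closedBall (0 : ℂ) R').eventually_forall_of_forall_eventually
        intro z _
        have hc : Continuous fun y : Par d × ℂ => ‖Q d y.1 y.2 - Q d x y.2‖ :=
          ((Q_cont d).sub ((Q_diff d x).continuous.comp continuous_snd)).norm
        apply hc.continuousAt.eventually_lt continuousAt_const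
        simp only [sub_self, norm_zero]
        positivity
      refine ⟨{x' | (∃ ω, dQ d x' ω = 0 ∧ ‖ω - ω₀‖ < min r 1) ∧
        ∀ z ∈ closedBall (0 : ℂ) R', ‖Q d x' z - Q d x z‖ < η' / 2},
        mem_nhdsWithin_of_mem_nhds (h1.and h2), R', η' / 2, by positivity, ?_⟩
      rintro x' ⟨⟨ω, hω, hωr⟩, hx'⟩ h hh
      refine ⟨ω, hω, j, ?_⟩
      have g1 := (H h (fun z hz => by
        have e1 := hh z hz
        have e2 := hx' z (mem_closedBall_zero_iff.2 hz.le)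
        calc ‖h z - Q d x z‖ = ‖(h z - Q d x' z) + (Q d x' z - Q d x z)‖ := by congr 1; ring
          _ ≤ ‖h z - Q d x' z‖ + ‖Q d x' z - Q d x z‖ := norm_add_le _ _
          _ ≤ η' := by linarith) ω (by
            rw [mem_closedBall, dist_eq_norm]
            exact (hωr.trans_le (min_le_right _ _)).le) j le_rfl).1
      have g2 := hrj (x := ω) (by
        rw [dist_eq_norm]
        exact hωr.trans_le (min_le_left _ _))
      rw [dist_eq_norm] at g2
      have g3 : ‖(Q d x)^[j] ω₀‖ ≤ ‖h^[j] ω‖ + ‖h^[j] ω - (Q d x)^[j] ω‖ +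
          ‖(Q d x)^[j] ω - (Q d x)^[j] ω₀‖ := by
        calc ‖(Q d x)^[j] ω₀‖ = ‖h^[j] ω - (h^[j] ω - (Q d x)^[j] ω) -
              ((Q d x)^[j] ω - (Q d x)^[j] ω₀)‖ := by congr 1; ring
          _ ≤ ‖h^[j] ω - (h^[j] ω - (Q d x)^[j] ω)‖ + ‖(Q d x)^[j] ω - (Q d x)^[j] ω₀‖ :=
              norm_sub_le _ _
          _ ≤ _ := by
              gcongr
              exact norm_sub_le _ _
      linarith
  obtain ⟨R, η, hη, H⟩ := key
  refine ⟨R, η, hη, fun x hx h hh hor => ?_⟩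
  by_contra hcon
  push Not at hcon
  obtain ⟨ω, hω, j, hj⟩ := H x (by
    rw [hD]
    exact ⟨mem_closedBall_zero_iff.2 hx, hcon⟩) h hh
  exact absurd (hor ω hω j) (not_le.2 hj)

/-- the critical points in a bounded family -/
theorem crit_bd {d : ℕ} (hd : 2 ≤ d) (B : ℝ) : ∃ K : ℝ, ∀ x : Par d, ‖x‖ ≤ B →
    ∀ ω, dQ d x ω = 0 → ‖ω‖ ≤ K := by
  refine ⟨max 1 (d * B), fun x hx ω hω => ?_⟩
  by_contra hcon
  rw [not_le, max_lt_iff] at hcon
  obtain ⟨h1, h2⟩ := hcon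
  have hdR : (2 : ℝ) ≤ d := by exact_mod_cast hd
  have hB : 0 ≤ B := (norm_nonneg _).trans hx
  have hω0 : 0 < ‖ω‖ := by linarith
  unfold dQ at hω
  have h3 : ‖(d : ℂ) * ω ^ (d - 1)‖ = ‖∑ i : Fin (d - 2), x.1 i * ((i.1 + 1) * ω ^ i.1)‖ := by
    rw [eq_neg_of_add_eq_zero_left hω, norm_neg]
  have h4 : ‖∑ i : Fin (d - 2), x.1 i * ((i.1 + 1) * ω ^ i.1)‖ ≤
      ∑ _i : Fin (d - 2), B * (d * ‖ω‖ ^ (d - 2)) := by
    refine (norm_sum_le _ _).trans (Finset.sum_le_sum fun i _ => ?_)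
    have hi := i.2
    rw [norm_mul, norm_mul, norm_pow]
    have e1 : ‖x.1 i‖ ≤ B := (norm_le_pi_norm x.1 i).trans ((norm_fst_le x).trans hx)
    have e2 : ‖((i.1 : ℂ) + 1)‖ ≤ d := by
      have : ((i.1 : ℂ) + 1) = ((i.1 + 1 : ℕ) : ℂ) := by push_cast; ring
      rw [this, Complex.norm_natCast]
      exact_mod_cast (by omega : i.1 + 1 ≤ d)
    have e3 : ‖ω‖ ^ i.1 ≤ ‖ω‖ ^ (d - 2) := pow_le_pow_right₀ h1.le (by omega)
    gcongr
  rw [Finset.sum_const, Finset.card_univ, Fintype.card_fin, nsmul_eq_mul] at h4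
  rw [norm_mul, Complex.norm_natCast, norm_pow] at h3
  have h5 : ((d - 2 : ℕ) : ℝ) ≤ d := by exact_mod_cast Nat.sub_le d 2
  have h6 : ‖ω‖ ^ (d - 1) = ‖ω‖ ^ (d - 2) * ‖ω‖ := by rw [← pow_succ]; congr 1; omega
  have h7 : 0 < ‖ω‖ ^ (d - 2) := by positivity
  have h8 : (d : ℝ) * (‖ω‖ ^ (d - 2) * ‖ω‖) ≤ d * (B * (d * ‖ω‖ ^ (d - 2))) := by
    rw [← h6, h3]
    refine h4.trans ?_
    gcongr
  have h9 : (d : ℝ) * (B * (d * ‖ω‖ ^ (d - 2))) < d * (‖ω‖ ^ (d - 2) * ‖ω‖) := by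
    have : (d : ℝ) * (‖ω‖ ^ (d - 2) * ‖ω‖) - d * (B * (d * ‖ω‖ ^ (d - 2))) =
        d * ‖ω‖ ^ (d - 2) * (‖ω‖ - d * B) := by ring
    have h10 : 0 < (d : ℝ) * ‖ω‖ ^ (d - 2) * (‖ω‖ - d * B) := by
      apply mul_pos (by positivity)
      linarith
    linarith
  linarith

/-- **The inner estimate.** -/
theorem inner {d : ℕ} (hd : 2 ≤ d) {D : Set (Par d)} (hD : IsCompact D)
    (hyp : ∀ x ∈ D, ∀ w, dQ d x w = 0 → Attr (Q d x) w) : ∃ R η : ℝ, 0 < η ∧ ∀ x ∈ D,
      ∀ h : ℂ → ℂ, (∀ z : ℂ, ‖z‖ < R → ‖h z - Q d x z‖ ≤ η) → ∀ ω, dQ d x ω = 0 → Trap h R ω := by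
  obtain ⟨B, hB⟩ := hD.isBounded.exists_norm_le
  obtain ⟨K, hK⟩ := crit_bd hd B
  obtain ⟨R, η, hη, H⟩ := trap_family (X := Par d) (Q := fun x => Q d x) (Q' := fun x => dQ d x)
    (fun x => Q_diff d x) (Q_cont d) (dQ_cont d) hD hyp K
  refine ⟨R, η, hη, fun x hx h hh ω hω => H x hx h hh ω (hK x (hB x hx) ω hω) ?_⟩
  rw [hω, norm_zero]
  exact hη.le

/-- contraction of a disc -/
theorem attr_disc {F : ℂ → ℂ} (hF : Differentiable ℂ F) {p : ℕ} (hp : 0 < p) {a : ℂ} {ρ : ℝ}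
    (hρ : 0 < ρ) (h : ∀ x ∈ closedBall a ρ, ‖F^[p] x - a‖ < ρ / 4) :
    ∀ z ∈ closedBall a (ρ / 2), Attr F z := by
  intro z hz
  obtain ⟨G, hG⟩ : ∃ G, G = F^[p] := ⟨_, rfl⟩
  have hGd : Differentiable ℂ G := by rw [hG]; exact hF.iterate p
  rw [← hG] at h
  have hder : ∀ x ∈ closedBall a (ρ / 2), ‖deriv G x‖ ≤ 1 / 2 := by
    intro x hx
    have h1 : deriv G x = deriv (fun z => G z - a) x := by
      rw [deriv_sub_const]
    rw [h1]
    have h2 := Complex.norm_deriv_le_of_forall_mem_sphere_norm_le (c := x) (R := ρ / 2)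
      (C := ρ / 4) (f := fun z => G z - a) (by positivity) (hGd.sub_const a).diffContOnCl
      (fun y hy => (h y (by
        rw [mem_closedBall] at hx ⊢
        rw [mem_sphere] at hy
        have := dist_triangle y x a
        linarith)).le)
    refine h2.trans (le_of_eq ?_)
    field_simp
    norm_num
  have hmaps : MapsTo G (closedBall a (ρ / 2)) (closedBall a (ρ / 2)) := by
    intro x hx
    have h1 := h x (by
      rw [mem_closedBall] at hx ⊢
      linarith)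
    rw [mem_closedBall, dist_eq_norm]
    linarith
  have hlip : ∀ x ∈ closedBall a (ρ / 2), ∀ y ∈ closedBall a (ρ / 2),
      ‖G x - G y‖ ≤ 1 / 2 * ‖x - y‖ := by
    intro x hx y hy
    exact (convex_closedBall a (ρ / 2)).norm_image_sub_le_of_norm_deriv_le
      (fun w _ => hGd w) hder hy hx
  have hcon : ContractingWith (1 / 2) (hmaps.restrict G _ _) := by
    refine ⟨by
      rw [← NNReal.coe_lt_coe]
      norm_num, ?_⟩
    apply LipschitzWith.of_dist_le_mul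
    rintro ⟨x, hx⟩ ⟨y, hy⟩
    rw [Subtype.dist_eq, Subtype.dist_eq]
    show dist (G x) (G y) ≤ _
    rw [dist_eq_norm, dist_eq_norm]
    have := hlip x hx y hy
    simpa using this
  obtain ⟨y, hy, hfix, hlim, -⟩ := ContractingWith.exists_fixedPoint'
    (isClosed_closedBall.isComplete) hmaps hcon hz (edist_ne_top _ _)
  refine ⟨p, y, hp, ?_, ?_, ?_⟩
  · rw [← hG]
    exact hfix
  · rw [← hG]
    exact (hder y hy).trans_lt (by norm_num)
  · rw [hG] at hlim
    refine hlim.congr fun k => ?_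
    rw [← Function.iterate_mul]

theorem attr_step {F : ℂ → ℂ} (hF : Differentiable ℂ F) {z : ℂ} (h : Attr F (F z)) :
    Attr F z := by
  obtain ⟨p, a, hp, ha, hder, hlim⟩ := h
  obtain ⟨q, rfl⟩ : ∃ q, p = q + 1 := ⟨p - 1, by omega⟩
  refine ⟨q + 1, F^[q] a, by omega, ?_, ?_, ?_⟩
  · rw [← Function.iterate_add_apply, Nat.add_comm (q + 1) q, Function.iterate_add_apply, ha]
  · have hFa : F (F^[q] a) = a := by
      have := ha
      rwa [Function.iterate_succ_apply'] at this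
    have e1 : deriv (F^[q + 1]) (F^[q] a) = deriv (F^[q]) a * deriv F (F^[q] a) := by
      rw [Function.iterate_succ]
      have := deriv_comp (F^[q] a) (h₂ := F^[q]) (h := F) ((hF.iterate q) _) (hF _)
      rw [hFa] at this
      exact this
    have e2 : deriv (F^[q + 1]) a = deriv F (F^[q] a) * deriv (F^[q]) a := by
      rw [Function.iterate_succ']
      exact deriv_comp a (h₂ := F) (h := F^[q]) (hF _) ((hF.iterate q) _)
    rw [e1, mul_comm, ← e2]
    exact hder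
  · rw [← tendsto_add_atTop_iff_nat 1]
    have h1 : Tendsto (fun k : ℕ => F^[q] (F^[(q + 1) * k] (F z))) atTop (𝓝 (F^[q] a)) :=
      (((hF.iterate q).continuous.tendsto a).comp hlim)
    refine h1.congr fun k => ?_
    rw [← Function.iterate_succ_apply, ← Function.iterate_add_apply]
    have e : q + ((q + 1) * k).succ = (q + 1) * (k + 1) := by
      rw [Nat.succ_eq_add_one]
      ring
    rw [e]

theorem attr_iter {F : ℂ → ℂ} (hF : Differentiable ℂ F) {z : ℂ} (n : ℕ) (h : Attr F (F^[n] z)) :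
    Attr F z := by
  induction n generalizing z with
  | zero => exact h
  | succ n ih =>
    apply attr_step hF
    apply ih
    rw [← Function.iterate_succ_apply]
    exact h

theorem conj_iter {g : ℂ → ℂ} {m : ℂ} (hm : m ≠ 0) (n j : ℕ) (z : ℂ) :
    (fun z => g^[n] (m * z) / m)^[j] z = g^[n * j] (m * z) / m := by
  induction j generalizing z with
  | zero =>
    rw [Function.iterate_zero, Nat.mul_zero, Function.iterate_zero]
    simp only [id]
    field_simp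
  | succ j ih =>
    rw [Function.iterate_succ_apply, ih, Nat.mul_succ, Function.iterate_add_apply]
    congr 2
    field_simp

theorem attr_of_trap {g : ℂ → ℂ} (hg : Differentiable ℂ g) {m : ℂ} (hm : m ≠ 0) {n : ℕ}
    (hn : 0 < n) {R : ℝ} {ζ : ℂ} (h : Trap (fun z => g^[n] (m * z) / m) R ζ) :
    Attr g (m * ζ) := by
  obtain ⟨a, ρ, M, J, hρ, hM, h1, h2, h3⟩ := h
  have hm0 : 0 < ‖m‖ := norm_pos_iff.2 hm
  have h4 := attr_disc hg (p := n * M) (by positivity) (a := m * a) (ρ := ‖m‖ * ρ)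
    (by positivity) (by
      intro x hx
      have e1 : x = m * (x / m) := by field_simp
      have e2 : x / m ∈ closedBall a ρ := by
        rw [mem_closedBall, dist_eq_norm] at hx ⊢
        have : x / m - a = (x - m * a) / m := by field_simp
        rw [this, norm_div, div_le_iff₀ hm0]
        linarith
      have e3 := (h1 _ e2).1
      rw [conj_iter hm, ← e1] at e3
      have e4 : g^[n * M] x - m * a = m * (g^[n * M] x / m - a) := by field_simp
      rw [e4, norm_mul]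
      have : ‖m‖ * ρ / 4 = ‖m‖ * (ρ / 4) := by ring
      rw [this]
      gcongr)
  apply attr_iter hg (n * J)
  apply h4
  rw [conj_iter hm] at h2
  rw [mem_closedBall, dist_eq_norm]
  have e4 : g^[n * J] (m * ζ) - m * a = m * (g^[n * J] (m * ζ) / m - a) := by field_simp
  rw [e4, norm_mul]
  have : ‖m‖ * ρ / 2 = ‖m‖ * (ρ / 2) := by ring
  rw [this]
  gcongr

theorem trap_bd {h : ℂ → ℂ} {R : ℝ} {ζ : ℂ} (ht : Trap h R ζ) (j : ℕ) : ‖h^[j] ζ‖ < R := by
  obtain ⟨a, ρ, M, J, hρ, hM, h1, h2, h3⟩ := ht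
  rcases Nat.lt_or_ge j J with hj | hj
  · exact h3 j hj.le
  have hk : ∀ k : ℕ, h^[M * k] (h^[J] ζ) ∈ closedBall a ρ := by
    intro k
    induction k with
    | zero =>
      rw [Nat.mul_zero, Function.iterate_zero, id_eq, mem_closedBall, dist_eq_norm]
      linarith
    | succ k ih =>
      rw [Nat.mul_succ, Nat.add_comm, Function.iterate_add_apply, mem_closedBall, dist_eq_norm]
      have := (h1 _ ih).1
      linarith
  have e1 : j = (j - J) % M + M * ((j - J) / M) + J := by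
    have := Nat.mod_add_div (j - J) M
    omega
  rw [e1, Function.iterate_add_apply, Function.iterate_add_apply]
  exact (h1 _ (hk _)).2 _ (Nat.mod_lt _ hM).le

end Pool.Agent.N772.CL
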