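import Mathlib
import Pool.Agent.N772.CL.Comp
import Pool.Agent.N772.FU.Att
import Pool.Agent.N772.FU.Num

/-!
# Conversions
-/

set_option autoImplicit false

open Polynomial Filter Metric Topology Set
open Pool.Agent.N772.FU

namespace Pool.Agent.N772.CL

/-- the coefficients as a sequence -/
noncomputable def exc (d : ℕ) (q : Fin (d - 2) → ℂ) (i : ℕ) : ℂ :=
  if h : 1 ≤ i ∧ i < d - 1 then q ⟨i - 1, by omega⟩ else 0

theorem exc_le {d : ℕ} {q : Fin (d - 2) → ℂ} {A : ℝ} (hA : 0 ≤ A) (h : ∀ i, ‖q i‖ ≤ A) (i : ℕ) :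
    ‖exc d q i‖ ≤ A := by
  unfold exc
  split_ifs with hi
  · exact h _
  · simpa using hA

theorem exc_cont (d : ℕ) : Continuous fun x : Par d => (exc d x.1, x.2) := by
  refine Continuous.prodMk ?_ continuous_snd
  refine continuous_pi fun i => ?_
  unfold exc
  split_ifs with hi
  · exact (continuous_apply _).comp continuous_fst
  · exact continuous_const

theorem exc_sum {d : ℕ} (hd : 2 ≤ d) (q : Fin (d - 2) → ℂ) (F : ℕ → ℂ) :
    ∑ i ∈ Finset.Ico 1 d, exc d q i * F i = ∑ i : Fin (d - 2), q i * F (i.1 + 1) := by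
  have h1 : ∑ i ∈ Finset.Ico 1 d, exc d q i * F i = ∑ i ∈ Finset.Ico 1 (d - 1), exc d q i * F i := by
    symm
    apply Finset.sum_subset
    · intro i hi
      rw [Finset.mem_Ico] at hi ⊢
      omega
    · intro i hi hi'
      rw [Finset.mem_Ico] at hi hi'
      unfold exc
      rw [dif_neg (by omega), zero_mul]
  rw [h1, Finset.sum_Ico_eq_sum_range, show d - 1 - 1 = d - 2 by omega, Finset.sum_range]
  refine Finset.sum_congr rfl fun i _ => ?_
  have hi := i.2
  unfold exc
  rw [dif_pos ⟨by omega, by omega⟩]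
  congr 2
  · apply Fin.ext
    show 1 + i.1 - 1 = i.1
    omega
  · omega

theorem Q_eq {d : ℕ} (hd : 2 ≤ d) (x : Par d) (z : ℂ) : Q d x z = Us d (exc d x.1) z + x.2 := by
  unfold Q Us
  rw [exc_sum hd x.1 (fun i => z ^ i)]

theorem Q_QQ {d : ℕ} (hd : 2 ≤ d) (x : Par d) : Q d x = QQ d (exc d x.1, x.2) := by
  funext z
  rw [Q_eq hd]
  rfl

/-- the chart -/
noncomputable def ch (d : ℕ) (c m l : ℂ) (b : (Fin (d - 2) → ℂ) → ℂ) (x : Par d) : Par d :=
  (fun i => x.1 i * m ^ (d - 1 - i.1), c + b x.1 + l * x.2)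

theorem exc_pp {d : ℕ} (m : ℂ) (q : Fin (d - 2) → ℂ) :
    exc d (fun i => q i * m ^ (d - 1 - i.1)) = pp d m (exc d q) := by
  funext i
  unfold pp exc
  by_cases h : 1 ≤ i ∧ i < d - 1
  · rw [dif_pos h, if_pos (by omega), dif_pos h]
    show _ * m ^ (d - 1 - (i - 1)) = _
    congr 2
    omega
  · rw [dif_neg h, dif_neg h]
    split_ifs <;> simp

theorem Q_ch {d : ℕ} (hd : 2 ≤ d) (c m l : ℂ) (b : (Fin (d - 2) → ℂ) → ℂ) (x : Par d) :
    Q d (ch d c m l b x) = gg d m (exc d x.1) (fun _ => 0) (c + b x.1 + l * x.2) := by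
  funext z
  rw [Q_eq hd]
  unfold gg Gs Vs ch
  simp only [zero_mul, Finset.sum_const_zero, add_zero, div_one]
  rw [exc_pp]

theorem dQ_ch {d : ℕ} (c m l : ℂ) (b : (Fin (d - 2) → ℂ) → ℂ) (x : Par d) (z : ℂ) :
    dQ d (ch d c m l b x) (m * z) = m ^ (d - 1) * dQ d x z := by
  unfold dQ ch
  rw [mul_add, Finset.mul_sum]
  congr 1
  · rw [mul_pow]
    ring
  refine Finset.sum_congr rfl fun i _ => ?_
  have hi := i.2
  have : m ^ (d - 1) = m ^ (d - 1 - i.1) * m ^ i.1 := by rw [← pow_add]; congr 1; omega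
  rw [this, mul_pow]
  ring

/-- approximation of bounded sets by compact subsets -/
theorem approx {X : Type*} [PseudoMetricSpace X] [ProperSpace X] {H : Set X}
    (hb : Bornology.IsBounded H) {ε : ℝ} (hε : 0 < ε) : ∃ D ⊆ H, IsCompact D ∧
      (∀ y ∈ closure H, ∃ x ∈ D, dist x y < ε) ∧ ∀ x, ball x ε ⊆ H → x ∈ D := by
  obtain ⟨t, ht, htf, hcov⟩ := finite_approx_of_totallyBounded
    (hb.isCompact_closure.totallyBounded.subset subset_closure) (ε / 2) (half_pos hε)
  refine ⟨t ∪ {x | ball x ε ⊆ H}, ?_, ?_, ?_, fun x hx => Or.inr hx⟩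
  · rintro x (hx | hx)
    · exact ht hx
    · exact hx (mem_ball_self hε)
  · apply htf.isCompact.union
    apply isCompact_of_isClosed_isBounded
    · have : {x | ball x ε ⊆ H} = ⋂ y ∈ Hᶜ, {x | ε ≤ dist y x} := by
        ext x
        simp only [mem_setOf_eq, mem_iInter, mem_compl_iff]
        constructor
        · intro h y hy
          by_contra hcon
          push Not at hcon
          exact hy (h (mem_ball.2 hcon))
        · intro h y hy
          by_contra hcon
          exact absurd (mem_ball.1 hy) (not_lt.2 (h y hcon))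
      rw [this]
      exact isClosed_biInter fun y _ => isClosed_le continuous_const
        (continuous_const.dist continuous_id)
    · exact hb.subset fun x hx => hx (mem_ball_self hε)
  · intro y hy
    obtain ⟨z, hz, hyz⟩ := Metric.mem_closure_iff.1 hy (ε / 2) (half_pos hε)
    have h1 := hcov hz
    rw [mem_iUnion₂] at h1
    obtain ⟨x, hx, hzx⟩ := h1
    refine ⟨x, Or.inl hx, ?_⟩
    rw [mem_ball] at hzx
    calc dist x y ≤ dist x z + dist z y := dist_triangle _ _ _
      _ < ε := by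
        rw [dist_comm x z, dist_comm z y]
        linarith

/-- the hyperbolic parameters -/
def hypc (d : ℕ) : Set (Par d) := {x | ∀ ω, dQ d x ω = 0 → Attr (Q d x) ω}

theorem attr_bdd {F : ℂ → ℂ} (hF : Continuous F) {z : ℂ} (h : Attr F z) :
    ∃ B : ℝ, ∀ j : ℕ, ‖F^[j] z‖ ≤ B := by
  obtain ⟨p, a, hp, -, -, hlim⟩ := h
  have h1 : ∀ r : ℕ, ∃ B : ℝ, ∀ k : ℕ, ‖F^[r] (F^[p * k] z)‖ ≤ B := by
    intro r
    have h2 : Tendsto (fun k : ℕ => F^[r] (F^[p * k] z)) atTop (𝓝 (F^[r] a)) :=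
      (((hF.iterate r).tendsto a).comp hlim)
    obtain ⟨B, hB⟩ := h2.norm.bddAbove_range
    exact ⟨B, fun k => hB (mem_range_self k)⟩
  choose B hB using h1
  refine ⟨∑ r ∈ Finset.range p, |B r|, fun j => ?_⟩
  have e1 : j = j % p + p * (j / p) := (Nat.mod_add_div j p).symm
  have e2 : F^[j] z = F^[j % p] (F^[p * (j / p)] z) := by
    rw [← Function.iterate_add_apply, ← e1]
  rw [e2]
  refine (hB _ _).trans ((le_abs_self _).trans ?_)
  exact Finset.single_le_sum (f := fun r => |B r|) (fun _ _ => abs_nonneg _)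
    (Finset.mem_range.2 (Nat.mod_lt _ hp))

theorem hypc_sub (d : ℕ) : hypc d ⊆ locus d := fun x hx ω hω =>
  attr_bdd (Q_diff d x).continuous (hx ω hω)

end Pool.Agent.N772.CL
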