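import Mathlib
import Pool.Agent.N772.FU.Ren

/-!
# The constant term depends in a Lipschitz way on the other coefficients
-/

set_option autoImplicit false

open Set Filter Metric Topology

namespace Pool.Agent.N772.CL

open Pool.Agent.N772.FU
open Pool.Agent.TH279.MD Pool.Agent.Y298.SH Pool.Agent.Y298.SH.CD Pool.Agent.Y298.CA
open Pool.Agent.N253.MS Pool.Agent.N772.TC

/-- the linear equation -/
theorem lin {N : ℕ} {a : ℕ → ℂ} {M : ℝ} (h : Orb N a M) {e r : ℕ → ℂ} {β : ℂ} (h0 : e 0 = β)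
    (hN : e N = 0) (hs : ∀ j < N, e (j + 1) = a j * e j + β + r j) {L κ : ℝ} (hL0 : 0 ≤ L)
    (hκ : 0 ≤ κ) (hr : ∀ j < N, ‖r j‖ ≤ L * ‖e j‖ + κ) (hL : 4 * M ^ 5 * L ≤ 1) :
    ‖β‖ ≤ 2 * M ^ 3 * κ := by
  have hM1 := h.hM
  have hM0 : 0 < M := by linarith
  have hNM : (N : ℝ) ≤ M := by linarith [h.hN]
  obtain ⟨T, hT⟩ : ∃ T, T = ∑ i ∈ Finset.range (N + 1), (Dp a i)⁻¹ := ⟨_, rfl⟩
  have hT1 : 1 ≤ M * ‖T‖ := by rw [hT]; exact h.hT
  have hT0 : 0 < ‖T‖ := by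
    by_contra hcon
    have : ‖T‖ = 0 := le_antisymm (not_lt.1 hcon) (norm_nonneg _)
    rw [this] at hT1
    linarith
  have hTne : T ≠ 0 := norm_pos_iff.1 hT0
  have hTinv : ‖T⁻¹‖ ≤ M := by
    rw [norm_inv]
    exact (inv_le_iff_one_le_mul₀ hT0).2 hT1
  -- the maximum
  obtain ⟨j₀, hj₀, hmax⟩ := Finset.exists_max_image (Finset.range (N + 1)) (fun j => ‖e j‖)
    ⟨0, Finset.mem_range.2 (by omega)⟩
  obtain ⟨t, ht⟩ : ∃ t, t = ‖e j₀‖ := ⟨_, rfl⟩
  have ht0 : 0 ≤ t := by rw [ht]; exact norm_nonneg _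
  have hmax' : ∀ j ≤ N, ‖e j‖ ≤ t := fun j hj => by
    rw [ht]
    exact hmax j (Finset.mem_range.2 (by omega))
  have hr' : ∀ j < N, ‖r j‖ ≤ L * t + κ := fun j hj => (hr j hj).trans (by
    have := hmax' j hj.le
    gcongr)
  -- the solution
  have hsol : ∀ j ≤ N, e j * (Dp a j)⁻¹ = β + ∑ i ∈ Finset.range j, (β + r i) * (Dp a (i + 1))⁻¹ := by
    intro j
    induction j with
    | zero =>
      intro _
      rw [h0, Dp_zero]
      simp
    | succ j ih =>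
      intro hj
      have h1 := ih (by omega)
      have h2 := h.ne (j + 1) hj
      have h3 := h.ne j (by omega)
      rw [Finset.sum_range_succ, ← add_assoc, ← h1, hs j (by omega)]
      have h4 : Dp a (j + 1) = Dp a j * a j := Dp_succ a j
      have h5 : a j ≠ 0 := by
        intro h0
        rw [h4, h0, mul_zero] at h2
        exact h2 rfl
      rw [h4]
      field_simp
      ring
  have hzero : β + ∑ i ∈ Finset.range N, (β + r i) * (Dp a (i + 1))⁻¹ = 0 := by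
    rw [← hsol N le_rfl, hN, zero_mul]
  have hT' : T = 1 + ∑ i ∈ Finset.range N, (Dp a (i + 1))⁻¹ := by
    rw [hT, Finset.sum_range_succ', Dp_zero, inv_one, add_comm]
  have hβ : β = -(∑ i ∈ Finset.range N, r i * (Dp a (i + 1))⁻¹) * T⁻¹ := by
    have h1 : β * T = -(∑ i ∈ Finset.range N, r i * (Dp a (i + 1))⁻¹) := by
      rw [hT', mul_add, mul_one, Finset.mul_sum, eq_neg_iff_add_eq_zero, add_assoc,
        ← Finset.sum_add_distrib, ← hzero]
      congr 1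
      refine Finset.sum_congr rfl fun i _ => ?_
      ring
    rw [← h1, mul_assoc, mul_inv_cancel₀ hTne, mul_one]
  have hLt : 0 ≤ L * t + κ := by positivity
  have hβn : ‖β‖ ≤ M ^ 3 * (L * t + κ) := by
    rw [hβ, norm_mul, norm_neg]
    have e1 : ‖∑ i ∈ Finset.range N, r i * (Dp a (i + 1))⁻¹‖ ≤ N * ((L * t + κ) * M) := by
      apply sum_bd (by simp) (by positivity)
      intro i hi
      rw [Finset.mem_range] at hi
      rw [norm_mul]
      gcongr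
      · exact hr' i hi
      · exact h.inv_le (by omega)
    calc _ ≤ N * ((L * t + κ) * M) * M := by gcongr
      _ ≤ M * ((L * t + κ) * M) * M := by gcongr
      _ = M ^ 3 * (L * t + κ) := by ring
  have hM3 : 1 ≤ M ^ 3 := one_le_pow₀ hM1
  have hej : ∀ j ≤ N, ‖e j‖ ≤ 2 * M ^ 5 * (L * t + κ) := by
    intro j hj
    have h1 : e j * (Dp a j)⁻¹ = -∑ i ∈ Finset.Ico j N, (β + r i) * (Dp a (i + 1))⁻¹ := by
      rw [hsol j hj, eq_neg_iff_add_eq_zero, add_assoc, Finset.sum_range_add_sum_Ico _ hj, hzero]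
    have h2 := h.ne j hj
    have h3 : e j = -∑ i ∈ Finset.Ico j N, (β + r i) * (Dp a j * (Dp a (i + 1))⁻¹) := by
      have h4 : e j = e j * (Dp a j)⁻¹ * Dp a j := by field_simp
      rw [h4, h1, neg_mul, Finset.sum_mul]
      congr 1
      refine Finset.sum_congr rfl fun i _ => ?_
      ring
    rw [h3, norm_neg]
    have e1 : ‖∑ i ∈ Finset.Ico j N, (β + r i) * (Dp a j * (Dp a (i + 1))⁻¹)‖ ≤
        N * ((M ^ 3 * (L * t + κ) + (L * t + κ)) * M) := by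
      apply sum_bd (by simp) (by positivity)
      intro i hi
      rw [Finset.mem_Ico] at hi
      rw [norm_mul]
      have e2 : ‖β + r i‖ ≤ M ^ 3 * (L * t + κ) + (L * t + κ) :=
        (norm_add_le _ _).trans (add_le_add hβn (hr' i hi.2))
      gcongr
      exact h.ratio (by omega) (by omega)
    refine e1.trans ?_
    calc (N : ℝ) * ((M ^ 3 * (L * t + κ) + (L * t + κ)) * M) ≤
          M * ((M ^ 3 * (L * t + κ) + M ^ 3 * (L * t + κ)) * M) := by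
            gcongr
            exact le_mul_of_one_le_left hLt hM3
      _ = 2 * M ^ 5 * (L * t + κ) := by ring
  have ht1 : t ≤ 2 * M ^ 5 * (L * t + κ) := by
    rw [Finset.mem_range] at hj₀
    have := hej j₀ (by omega)
    rwa [← ht] at this
  have ht2 : t ≤ 4 * M ^ 5 * κ := by
    have h1 : 2 * M ^ 5 * (L * t + κ) = 4 * M ^ 5 * L * t / 2 + 2 * M ^ 5 * κ := by ring
    have h2 : 4 * M ^ 5 * L * t ≤ 1 * t := by gcongr
    linarith
  have ht3 : L * t ≤ κ := by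
    calc L * t ≤ L * (4 * M ^ 5 * κ) := by gcongr
      _ = 4 * M ^ 5 * L * κ := by ring
      _ ≤ 1 * κ := by gcongr
      _ = κ := one_mul κ
  calc ‖β‖ ≤ M ^ 3 * (L * t + κ) := hβn
    _ ≤ M ^ 3 * (κ + κ) := by gcongr
    _ = 2 * M ^ 3 * κ := by ring

/-- the orbit data -/
def Dat (d N : ℕ) (c : ℂ) (p s : ℕ → ℂ) (ρ : ℝ) (b : ℂ) : Prop :=
  ∃ X : ℕ → ℂ, X 0 = c + b ∧ X N = 0 ∧
    (∀ j < N, X (j + 1) = Gs d p s (X j) + (c + b)) ∧ ∀ j, ‖X j - zz d c j‖ ≤ ρ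

theorem orbit_lip {d N : ℕ} (hd : 2 ≤ d) {c : ℂ} {M : ℝ} (hO : Orb N (aa d c) M)
    (hb : ∀ j, ‖zz d c j‖ ≤ 2) {p s p' s' : ℕ → ℂ} {σ : ℝ} (hp : ∀ i, ‖p i‖ ≤ σ)
    (hs : ∀ i, ‖s i‖ ≤ σ) (hσ : 20 * Kc d ^ 2 * M ^ 10 * σ ≤ 1) {b b' : ℂ}
    (h1 : Dat d N c p s (4 * Kc d * M ^ 5 * σ) b) (h2 : Dat d N c p' s' (4 * Kc d * M ^ 5 * σ) b')
    {κ : ℝ} (hκ : ∀ z : ℂ, ‖z‖ ≤ 3 → ‖Gs d p s z - Gs d p' s' z‖ ≤ κ) :
    ‖b - b'‖ ≤ 2 * M ^ 3 * κ := by
  obtain ⟨X, hX0, hXN, hXs, hXc⟩ := h1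
  obtain ⟨Y, hY0, hYN, hYs, hYc⟩ := h2
  have hσ0 : 0 ≤ σ := (norm_nonneg _).trans (hp 0)
  have hK := Kc_ge hd
  obtain ⟨K, hKK⟩ : ∃ K, K = Kc d := ⟨_, rfl⟩
  rw [← hKK] at hK hσ hXc hYc
  have hM1 := hO.hM
  have hM0 : 0 < M := by linarith
  have hK0 : 0 < K := by linarith
  have hM5 : 1 ≤ M ^ 5 := one_le_pow₀ hM1
  have hMM : M ^ 10 = M ^ 5 * M ^ 5 := by ring
  obtain ⟨ρ, hρ⟩ : ∃ ρ, ρ = 4 * K * M ^ 5 * σ := ⟨_, rfl⟩
  have hρ0 : 0 ≤ ρ := by rw [hρ]; positivity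
  rw [← hρ] at hXc hYc
  have hσρ : σ ≤ K * M ^ 5 * σ := by
    have : 1 ≤ K * M ^ 5 := one_le_mul_of_one_le_of_one_le hK hM5
    exact le_mul_of_one_le_left hσ0 this
  have hmain : 4 * M ^ 5 * (K * (ρ + σ)) ≤ 1 := by
    calc 4 * M ^ 5 * (K * (ρ + σ)) ≤ 4 * M ^ 5 * (K * (4 * K * M ^ 5 * σ + K * M ^ 5 * σ)) := by
          rw [hρ]
          gcongr
      _ = 20 * K ^ 2 * M ^ 10 * σ := by rw [hMM]; ring
      _ ≤ 1 := hσ
  have hρ1 : ρ ≤ 1 := by
    have h1 : ρ ≤ 4 * M ^ 5 * (K * (ρ + σ)) := by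
      have h2 : 1 ≤ 4 * M ^ 5 * K := by nlinarith
      calc ρ ≤ ρ + σ := by linarith
        _ ≤ (4 * M ^ 5 * K) * (ρ + σ) := le_mul_of_one_le_left (by positivity) h2
        _ = _ := by ring
    linarith
  have hKσ : Kc d * σ ≤ 1 / 2 := by
    rw [← hKK]
    have h1 : K * σ ≤ K * (ρ + σ) := by
      gcongr
      linarith
    have h2 : 4 * (K * (ρ + σ)) ≤ 4 * M ^ 5 * (K * (ρ + σ)) := by
      gcongr
      linarith
    have h3 : 0 ≤ K * σ := by positivity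
    linarith
  have hκ0 : 0 ≤ κ := (norm_nonneg _).trans (hκ 0 (by simp))
  refine lin hO (e := fun j => X j - Y j)
    (r := fun j => (Gs d p s (X j) - Gs d p s (Y j) - aa d c j * (X j - Y j)) +
      (Gs d p s (Y j) - Gs d p' s' (Y j))) (β := b - b') (L := K * (ρ + σ)) ?_ ?_ ?_
      (by positivity) hκ0 ?_ hmain
  · rw [hX0, hY0]
    ring
  · rw [hXN, hYN, sub_zero]
  · intro j hj
    rw [hXs j hj, hYs j hj]
    ring
  · intro j _
    refine (norm_add_le _ _).trans (add_le_add ?_ (hκ _ ?_))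
    · have e1 := Rr_lip hd hp hs hKσ (hb j) (show ρ ≤ 2 by linarith) (u := X j - zz d c j)
        (v := Y j - zz d c j) (hXc j) (hYc j)
      rw [← hKK] at e1
      have e2 : Rr d p s (zz d c j) (X j - zz d c j) - Rr d p s (zz d c j) (Y j - zz d c j) =
          Gs d p s (X j) - Gs d p s (Y j) - aa d c j * (X j - Y j) := by
        unfold Rr aa
        rw [add_sub_cancel, add_sub_cancel]
        ring
      rw [e2] at e1
      have e3 : X j - zz d c j - (Y j - zz d c j) = X j - Y j := by ring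
      rwa [e3] at e1
    · have e1 := norm_le_norm_add_norm_sub' (Y j) (zz d c j)
      have e2 := hYc j
      have e3 := hb j
      linarith

end Pool.Agent.N772.CL
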