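import Pool.Agent.N772.FU.Num
import Pool.Agent.N772.CL.Lip

/-!
# Universality of the perturbations of `z ^ d + c`, with the Lipschitz estimate
-/

set_option autoImplicit false

open Set Filter Metric MeasureTheory Topology

namespace Pool.Agent.N772.CL

open Pool.Agent.TH279.MD Pool.Agent.Y298.SH Pool.Agent.Y298.SH.CD Pool.Agent.Y298.CA
open Pool.Agent.N253.MS Pool.Agent.N772.TC Pool.Agent.N772.FU
open Pool.Agent.H712R2 (P P_succ)

/-- **Universality.** -/
theorem full2 {d : ℕ} (hd : 2 ≤ d) {χ : ℝ} (hχ : 0 < χ) {η : ℝ} (hη : 0 < η) :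
    ∃ δ : ℝ, 0 < δ ∧ ∀ c₀ : ℂ, Lyap d χ c₀ → ∃ δ' : ℝ, 0 < δ' ∧ δ' < χ ∧ ∀ᶠ n : ℕ in atTop,
      ∀ c : ℂ, P d n c = 0 → ‖c - c₀‖ ≤ Real.exp (-((χ - δ') * n)) →
      (∀ j, 1 ≤ j → j < n → P d j c ≠ 0) ∧ deriv ((f d c)^[n - 1]) c ≠ 0 ∧ deriv (P d n) c ≠ 0 ∧
      ∀ m l : ℂ, m ^ (d - 1) * deriv ((f d c)^[n - 1]) c = 1 → l * deriv (P d n) c = m →
      (Real.exp (-((χ / ((d : ℝ) - 1) + η) * n)) ≤ ‖m‖ ∧
        ‖m‖ ≤ Real.exp (-((χ / ((d : ℝ) - 1) - η) * n))) ∧
      (Real.exp (-((χ * (d / ((d : ℝ) - 1)) + η) * n)) ≤ ‖l‖ ∧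
        ‖l‖ ≤ Real.exp (-((χ * (d / ((d : ℝ) - 1)) - η) * n))) ∧
      ‖m‖ ≤ Real.exp (-(δ * n)) / Real.exp (δ * n) ^ 2 ∧
      ‖l‖ ≤ Real.exp (-(δ * n)) / Real.exp (δ * n) ∧
      ∃ D : (ℕ → ℂ) → (ℕ → ℂ) → ℂ → Prop,
        (∀ q s : ℕ → ℂ, (∀ i, ‖q i‖ ≤ Real.exp (δ * n)) → (∀ i, ‖s i‖ ≤ Real.exp (-(η * n))) →
        ∃ b : ℂ, D q s b ∧ ‖b‖ ≤ Real.exp (-(δ * n)) ∧ ∀ t z : ℂ, ‖t‖ ≤ Real.exp (δ * n) →
          ‖z‖ ≤ Real.exp (δ * n) →
          (∀ j ≤ n, ‖(gg d m q s (c + (b + l * t)))^[j] (m * z)‖ ≤ 4) ∧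
          (∀ j, 1 ≤ j → j < n →
            ‖m‖ * Real.exp (δ * n) < ‖(gg d m q s (c + (b + l * t)))^[j] (m * z)‖) ∧
          ‖(gg d m q s (c + (b + l * t)))^[n] (m * z) - m * (Us d q z + t)‖ ≤
            ‖m‖ * Real.exp (-(δ * n))) ∧
        (∀ (q s : ℕ → ℂ) (b : ℂ), D q s b → (gg d m q s (c + b))^[n] 0 = 0) ∧
        ∀ (q q' s : ℕ → ℂ) (b b' : ℂ) (r : ℝ), (∀ i, ‖q i‖ ≤ Real.exp (δ * n)) →
          (∀ i, ‖s i‖ ≤ Real.exp (-(η * n))) → D q s b → D q' s b' → (∀ i, ‖q i - q' i‖ ≤ r) →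
          ‖b - b'‖ ≤ Real.exp (-(δ * n)) * r := by
  have hdR : (2 : ℝ) ≤ d := by exact_mod_cast hd
  obtain ⟨e, he⟩ : ∃ e : ℝ, e = (d : ℝ) - 1 := ⟨_, rfl⟩
  have he1 : 1 ≤ e := by linarith
  have he0 : 0 < e := by linarith
  have hed : ((d - 1 : ℕ) : ℝ) = e := by rw [he]; push_cast [Nat.cast_sub (show 1 ≤ d by omega)]; ring
  obtain ⟨κ, hκ⟩ : ∃ κ, κ = min (min η 1) (χ / e) / 800 := ⟨_, rfl⟩
  have hκ0 : 0 < κ := by rw [hκ]; positivity
  have hκη : 800 * κ ≤ η := by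
    rw [hκ]
    have : min (min η 1) (χ / e) ≤ η := (min_le_left _ _).trans (min_le_left _ _)
    linarith
  have hκχ : 800 * κ ≤ χ / e := by
    rw [hκ]
    have : min (min η 1) (χ / e) ≤ χ / e := min_le_right _ _
    linarith
  obtain ⟨δ, hδ⟩ : ∃ δ, δ = κ / (d + 1) := ⟨_, rfl⟩
  have hδ0 : 0 < δ := by rw [hδ]; positivity
  have hδκ : ((d : ℝ) + 1) * δ ≤ κ := by
    have : δ ≤ κ / (d + 1) := hδ.le
    rw [le_div_iff₀ (by positivity)] at this
    linarith
  refine ⟨δ, hδ0, fun c₀ h => ?_⟩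
  obtain ⟨δ₁, hδ₁, H₁⟩ := seq_law hd h (ε := κ / 4) (by positivity)
  obtain ⟨δ₂, hδ₂, H₂⟩ := der_law hd h (ε := κ / 4) (by positivity)
  obtain ⟨δ', hδ'⟩ : ∃ δ', δ' = min (min δ₁ δ₂) (χ / 2) := ⟨_, rfl⟩
  have hδ'0 : 0 < δ' := by rw [hδ']; positivity
  have hδ1 : δ' ≤ δ₁ := by rw [hδ']; exact (min_le_left _ _).trans (min_le_left _ _)
  have hδ2 : δ' ≤ δ₂ := by rw [hδ']; exact (min_le_left _ _).trans (min_le_right _ _)
  have hδ3 : δ' < χ := by
    have : δ' ≤ χ / 2 := by rw [hδ']; exact min_le_right _ _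
    linarith
  refine ⟨δ', hδ'0, hδ3, ?_⟩
  have hgr : ∀ᶠ n : ℕ in atTop, (n : ℝ) ≤ Real.exp (κ * n) := by
    filter_upwards [ev_lin (show 0 < κ ^ 2 / 4 by positivity) 1] with n hn
    have h0 : (0 : ℝ) ≤ n := Nat.cast_nonneg n
    have h1 : κ * n / 2 ≤ Real.exp (κ * n / 2) := by
      have := Real.add_one_le_exp (κ * n / 2)
      linarith
    have h2 : (n : ℝ) * 1 ≤ n * (κ ^ 2 / 4 * n) := by gcongr
    calc (n : ℝ) = n * 1 := (mul_one _).symm
      _ ≤ n * (κ ^ 2 / 4 * n) := h2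
      _ = (κ * n / 2) ^ 2 := by ring
      _ ≤ Real.exp (κ * n / 2) ^ 2 := by gcongr
      _ = Real.exp (κ * n) := by rw [← Real.exp_nat_mul]; congr 1; push_cast; ring
  filter_upwards [H₁, H₂, hgr, ev_lin hκ0 (Real.log (100 * d * Kc d ^ 2)), eventually_ge_atTop 1]
    with n hn1 hn2 hn3 hn4 hn c hPc hcc
  have hn0 : (1 : ℝ) ≤ n := by exact_mod_cast hn
  have hn00 : (0 : ℝ) < n := by linarith
  have hcc1 : ‖c - c₀‖ ≤ Real.exp (-((χ - δ₁) * n)) := hcc.trans (Real.exp_le_exp.2 (by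
    have : (χ - δ₁) * n ≤ (χ - δ') * n := by gcongr
    linarith))
  have hcc2 : ‖c - c₀‖ ≤ Real.exp (-((χ - δ₂) * n)) := hcc.trans (Real.exp_le_exp.2 (by
    have : (χ - δ₂) * n ≤ (χ - δ') * n := by gcongr
    linarith))
  have hseq := hn1 c hPc hcc1
  obtain ⟨⟨hD1, hD2⟩, ⟨hP1, hP2⟩, -⟩ := hn2 c hPc hcc2
  obtain ⟨N, hN⟩ : ∃ N, n = N + 1 := ⟨n - 1, by omega⟩
  obtain ⟨w, hw⟩ : ∃ w, w = κ * n := ⟨_, rfl⟩
  obtain ⟨a, ha⟩ : ∃ a, a = δ * n := ⟨_, rfl⟩
  have hw0 : 0 < w := by rw [hw]; positivity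
  have ha0 : 0 < a := by rw [ha]; positivity
  have haw : ((d : ℝ) + 1) * a ≤ w := by
    rw [hw, ha, ← mul_assoc]
    gcongr
  have haw' : 3 * a ≤ w := by nlinarith
  have hC : 100 * d * Kc d ^ 2 ≤ Real.exp w := by
    have hK := Kc_ge hd
    rw [← Real.exp_log (show (0 : ℝ) < 100 * d * Kc d ^ 2 by positivity), hw]
    exact Real.exp_le_exp.2 (by linarith)
  rw [← hw] at hn3
  have hNn : n - 1 = N := by omega
  rw [hNn] at hseq hD1 hD2 ⊢
  have hDp : Dp (aa d c) N = deriv ((f d c)^[N]) c := Dp_eq d c N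
  have hzN : zz d c N = 0 := by
    rw [hN, P_last hd (by omega)] at hPc
    exact hPc
  have hbd : ∀ j, ‖zz d c j‖ ≤ 2 := by
    intro j
    have h1 := bd_of_centre hd hn hPc (j + 1)
    have h2 : P d (j + 1) c = zz d c j := by
      rw [P_last hd (by omega)]
      rfl
    rwa [h2] at h1
  have hne : ∀ j ≤ N, Dp (aa d c) j ≠ 0 := by
    intro j hj
    apply norm_pos_iff.1
    rw [norm_Dp]
    exact (Real.exp_pos _).trans_le (hseq j hj).1
  have hder : deriv (P d n) c = Dp (aa d c) N *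
      ∑ i ∈ Finset.range (N + 1), (Dp (aa d c) i)⁻¹ := by
    rw [hN]
    exact derP hd N hne
  have hκn0 : 0 < κ * n := by positivity
  have hO : Orb N (aa d c) (Real.exp w) := by
    refine ⟨Real.one_le_exp hw0.le, ?_, hne, ?_, ?_⟩
    · have : (n : ℝ) = N + 1 := by rw [hN]; push_cast; ring
      linarith
    · intro j i hji hi
      rw [norm_Dp, norm_Dp]
      have h1 := (hseq j (hji.trans hi)).2
      have h2 := (hseq i hi).1
      calc Pd d c j ≤ Real.exp (χ * j + κ / 4 * n) := h1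
        _ ≤ Real.exp (w + (χ * i - κ / 4 * n)) := by
            apply Real.exp_le_exp.2
            have h3 : χ * j ≤ χ * i := by gcongr
            rw [hw]
            linarith
        _ = Real.exp w * Real.exp (χ * i - κ / 4 * n) := Real.exp_add _ _
        _ ≤ _ := by gcongr
    · have h1 : ‖deriv (P d n) c‖ = ‖Dp (aa d c) N‖ *
          ‖∑ i ∈ Finset.range (N + 1), (Dp (aa d c) i)⁻¹‖ := by rw [hder, norm_mul]
      rw [hDp] at h1
      have h2 : Real.exp ((χ - κ / 4) * n) ≤ Real.exp ((χ + κ / 4) * n) *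
          ‖∑ i ∈ Finset.range (N + 1), (Dp (aa d c) i)⁻¹‖ := by
        rw [h1] at hP1
        refine hP1.trans ?_
        gcongr
      have h3 : Real.exp ((χ + κ / 4) * n) ≤ Real.exp w * Real.exp ((χ - κ / 4) * n) := by
        rw [← Real.exp_add]
        apply Real.exp_le_exp.2
        rw [hw]
        linarith
      have h4 : 0 < Real.exp ((χ - κ / 4) * n) := Real.exp_pos _
      have h5 : Real.exp ((χ - κ / 4) * n) * 1 ≤ Real.exp ((χ - κ / 4) * n) * (Real.exp w *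
          ‖∑ i ∈ Finset.range (N + 1), (Dp (aa d c) i)⁻¹‖) := by
        calc _ = Real.exp ((χ - κ / 4) * n) := mul_one _
          _ ≤ _ := h2
          _ ≤ (Real.exp w * Real.exp ((χ - κ / 4) * n)) *
              ‖∑ i ∈ Finset.range (N + 1), (Dp (aa d c) i)⁻¹‖ := by gcongr
          _ = _ := by ring
      exact le_of_mul_le_mul_left h5 h4
  -- the critical orbit stays away from the critical point
  have hzlow : ∀ j < N, Real.exp (-(2 * w)) ≤ ‖zz d c j‖ := by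
    intro j hj
    have h1 := hO.hD j (j + 1) (by omega) hj
    have h2 : 0 < ‖Dp (aa d c) j‖ := norm_pos_iff.2 (hne j hj.le)
    have h3 : ‖Dp (aa d c) (j + 1)‖ = ‖Dp (aa d c) j‖ * (d * ‖zz d c j‖ ^ (d - 1)) := by
      rw [Dp_succ, norm_mul]
      unfold aa
      rw [norm_mul, norm_pow, Complex.norm_natCast]
    rw [h3] at h1
    have h4 : 1 ≤ Real.exp w * (d * ‖zz d c j‖ ^ (d - 1)) := by
      have h5 : ‖Dp (aa d c) j‖ * 1 ≤ ‖Dp (aa d c) j‖ *
          (Real.exp w * (d * ‖zz d c j‖ ^ (d - 1))) := by linarith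
      exact le_of_mul_le_mul_left h5 h2
    have hdw : (d : ℝ) ≤ Real.exp w := by
      have hK := Kc_ge hd
      have : (1 : ℝ) ≤ Kc d ^ 2 := by nlinarith
      nlinarith
    rcases le_or_gt 1 ‖zz d c j‖ with h6 | h6
    · exact (Real.exp_le_one_iff.2 (by linarith)).trans h6
    have h7 : ‖zz d c j‖ ^ (d - 1) ≤ ‖zz d c j‖ := by
      calc ‖zz d c j‖ ^ (d - 1) ≤ ‖zz d c j‖ ^ 1 :=
            pow_le_pow_of_le_one (norm_nonneg _) h6.le (by omega)
        _ = _ := pow_one _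
    have h8 : 1 ≤ Real.exp (2 * w) * ‖zz d c j‖ := by
      calc 1 ≤ Real.exp w * (d * ‖zz d c j‖ ^ (d - 1)) := h4
        _ ≤ Real.exp w * (Real.exp w * ‖zz d c j‖) := by gcongr
        _ = Real.exp (2 * w) * ‖zz d c j‖ := by
            rw [← mul_assoc, ← Real.exp_add]
            congr 2
            ring
    rw [Real.exp_neg]
    exact (inv_le_iff_one_le_mul₀' (Real.exp_pos _)).2 h8
  refine ⟨?_, ?_, ?_, ?_⟩
  · intro j hj1 hj2 h0
    obtain ⟨i, rfl⟩ : ∃ i, j = i + 1 := ⟨j - 1, by omega⟩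
    have h1 := hzlow i (by omega)
    have h2 : zz d c i = 0 := by
      rw [P_last hd (by omega)] at h0
      exact h0
    rw [h2, norm_zero] at h1
    exact absurd h1 (not_le.2 (Real.exp_pos _))
  · rw [← hDp]
    exact hne N le_rfl
  · exact norm_pos_iff.1 ((Real.exp_pos _).trans_le hP1)
  intro m l hm hl
  -- the size of `m`
  have hmD : ‖m‖ ^ (d - 1) * ‖deriv ((f d c)^[N]) c‖ = 1 := by
    rw [← norm_pow, ← norm_mul, hm, norm_one]
  have hDpos : 0 < ‖deriv ((f d c)^[N]) c‖ := (Real.exp_pos _).trans_le hD1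
  have hmp : ‖m‖ ^ (d - 1) = ‖deriv ((f d c)^[N]) c‖⁻¹ := eq_inv_of_mul_eq_one_left hmD
  have hχe : χ = e * (χ / e) := by field_simp
  have hκe : κ / 4 / e ≤ κ / 4 := div_le_self (by positivity) he1
  have hm1 : ‖m‖ ≤ Real.exp (-((χ / e - κ / 4) * n)) := by
    have h1 : ‖m‖ ≤ Real.exp (-((χ / e - κ / 4 / e) * n)) := by
      apply pow_bd (norm_nonneg m) (show 1 ≤ d - 1 by omega)
      rw [hmp, hed]
      have h2 : e * -((χ / e - κ / 4 / e) * n) = -((χ - κ / 4) * n) := by field_simp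
      rw [h2, Real.exp_neg]
      exact inv_anti₀ (Real.exp_pos _) hD1
    refine h1.trans (Real.exp_le_exp.2 ?_)
    have : (χ / e - κ / 4) * n ≤ (χ / e - κ / 4 / e) * n := by gcongr
    linarith
  have hm2 : Real.exp (-((χ / e + κ / 4) * n)) ≤ ‖m‖ := by
    have h1 : Real.exp (-((χ / e + κ / 4 / e) * n)) ≤ ‖m‖ := by
      apply pow_bd' (norm_nonneg m) (show 1 ≤ d - 1 by omega)
      rw [hmp, hed]
      have h2 : e * -((χ / e + κ / 4 / e) * n) = -((χ + κ / 4) * n) := by field_simp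
      rw [h2, Real.exp_neg]
      exact inv_anti₀ hDpos hD2
    refine le_trans (Real.exp_le_exp.2 ?_) h1
    have : (χ / e + κ / 4 / e) * n ≤ (χ / e + κ / 4) * n := by gcongr
    linarith
  have hPpos : 0 < ‖deriv (P d n) c‖ := (Real.exp_pos _).trans_le hP1
  have hlm : ‖l‖ = ‖m‖ / ‖deriv (P d n) c‖ := by
    rw [eq_div_iff hPpos.ne', ← norm_mul, hl]
  have hχd : χ * (d / e) = χ / e + χ := by
    have : (d : ℝ) = e + 1 := by linarith
    rw [this]
    field_simp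
    ring
  have hκn : κ / 4 * n ≤ η / 4 * n := by
    have : κ ≤ η := by linarith
    gcongr
  have hηn : 0 < η * n := by positivity
  have hl1 : ‖l‖ ≤ Real.exp (-((χ / e + χ - κ / 2) * n)) := by
    rw [hlm, div_le_iff₀ hPpos]
    calc ‖m‖ ≤ Real.exp (-((χ / e - κ / 4) * n)) := hm1
      _ = Real.exp (-((χ / e + χ - κ / 2) * n)) * Real.exp ((χ - κ / 4) * n) := by
          rw [← Real.exp_add]
          congr 1
          ring
      _ ≤ _ := by gcongr
  have hl2 : Real.exp (-((χ / e + χ + κ / 2) * n)) ≤ ‖l‖ := by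
    rw [hlm, le_div_iff₀ hPpos]
    calc Real.exp (-((χ / e + χ + κ / 2) * n)) * ‖deriv (P d n) c‖ ≤
          Real.exp (-((χ / e + χ + κ / 2) * n)) * Real.exp ((χ + κ / 4) * n) := by gcongr
      _ = Real.exp (-((χ / e + κ / 4) * n)) := by
          rw [← Real.exp_add]
          congr 1
          ring
      _ ≤ _ := hm2
  have hχw : 800 * w ≤ χ / e * n := by
    rw [hw, ← mul_assoc]
    gcongr
  have hw4 : κ / 4 * n = w / 4 := by rw [hw]; ring
  have hm3 : ‖m‖ ≤ Real.exp (-(400 * w)) := by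
    refine hm1.trans (Real.exp_le_exp.2 ?_)
    rw [hw] at hχw ⊢
    linarith
  have hl3 : ‖l‖ ≤ Real.exp (-(400 * w)) := by
    refine hl1.trans (Real.exp_le_exp.2 ?_)
    have : 0 < χ * n := by positivity
    rw [hw] at hχw ⊢
    linarith
  rw [← he]
  refine ⟨⟨?_, ?_⟩, ⟨?_, ?_⟩, ?_, ?_, ?_⟩
  · refine le_trans (Real.exp_le_exp.2 ?_) hm2
    linarith
  · refine hm1.trans (Real.exp_le_exp.2 ?_)
    linarith
  · refine le_trans (Real.exp_le_exp.2 ?_) hl2
    rw [hχd]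
    linarith
  · refine hl1.trans (Real.exp_le_exp.2 ?_)
    rw [hχd]
    linarith
  · rw [le_div_iff₀ (by positivity), ← ha, ← Real.exp_nat_mul]
    calc ‖m‖ * Real.exp ((2 : ℕ) * a) ≤ Real.exp (-(400 * w)) * Real.exp ((2 : ℕ) * a) := by gcongr
      _ = Real.exp (-(400 * w) + (2 : ℕ) * a) := (Real.exp_add _ _).symm
      _ ≤ _ := Real.exp_le_exp.2 (by push_cast; linarith)
  · rw [le_div_iff₀ (by positivity), ← ha]
    calc ‖l‖ * Real.exp a ≤ Real.exp (-(400 * w)) * Real.exp a := by gcongr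
      _ = Real.exp (-(400 * w) + a) := (Real.exp_add _ _).symm
      _ ≤ _ := Real.exp_le_exp.2 (by linarith)
  rw [← ha]
  obtain ⟨k1, k2, k3, k4, k5, k6, k7, k8, k9, -⟩ :=
    num hd hw0 hC (norm_nonneg m) hm3 haw ha0.le
  have hm11 : ‖m‖ ≤ 1 := hm3.trans (Real.exp_le_one_iff.2 (by linarith))
  obtain ⟨σ, hσ⟩ : ∃ σ, σ = Real.exp (-(300 * w)) := ⟨_, rfl⟩
  have hσ0 : 0 < σ := by rw [hσ]; exact Real.exp_pos _
  rw [← hσ] at k1 k5 k6 k7 k8
  have hpσ : ∀ q : ℕ → ℂ, (∀ i, ‖q i‖ ≤ Real.exp a) → ∀ i, ‖pp d m q i‖ ≤ σ := by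
    intro q hq i
    unfold pp
    split_ifs with hi
    · rw [norm_mul, norm_pow]
      have h1 : ‖m‖ ^ (d - i) ≤ ‖m‖ := by
        calc ‖m‖ ^ (d - i) ≤ ‖m‖ ^ 1 := pow_le_pow_of_le_one (norm_nonneg m) hm11 (by omega)
          _ = ‖m‖ := pow_one _
      calc ‖q i‖ * ‖m‖ ^ (d - i) ≤ Real.exp a * Real.exp (-(400 * w)) := by
            gcongr
            · exact hq i
            · exact h1.trans hm3
        _ = Real.exp (a + -(400 * w)) := (Real.exp_add _ _).symm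
        _ ≤ σ := by rw [hσ]; exact Real.exp_le_exp.2 (by linarith)
    · rw [norm_zero]
      exact hσ0.le
  have hsσ : ∀ s : ℕ → ℂ, (∀ i, ‖s i‖ ≤ Real.exp (-(η * n))) → ∀ i, ‖s i‖ ≤ σ := by
    intro s hs i
    refine (hs i).trans ?_
    rw [hσ]
    apply Real.exp_le_exp.2
    have : 800 * w ≤ η * n := by
      rw [hw, ← mul_assoc]
      gcongr
    linarith
  refine ⟨fun q s b => Dat d N c (pp d m q) s (4 * Kc d * Real.exp w ^ 5 * σ) b, ?_, ?_, ?_⟩
  rotate_left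
  · rintro q s b ⟨X, hX0, hXN, hXs, -⟩
    have hit : ∀ j ≤ N, (gg d m q s (c + b))^[j + 1] 0 = X j := by
      intro j
      induction j with
      | zero =>
        intro _
        rw [hX0]
        simp only [zero_add, Function.iterate_one]
        unfold gg Gs
        have : Us d (pp d m q) 0 = 0 := by
          unfold Us
          rw [zero_pow (by omega), zero_add]
          refine Finset.sum_eq_zero fun i hi => ?_
          rw [Finset.mem_Ico] at hi
          rw [zero_pow (by omega), mul_zero]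
        rw [this, zero_div, zero_add]
      | succ j ih =>
        intro hj
        rw [Function.iterate_succ_apply', ih (by omega), hXs j (by omega)]
        rfl
    rw [hN, hit N le_rfl, hXN]
  · intro q q' s b b' r hq hs h1 h2 hr
    have hr0 : 0 ≤ r := (norm_nonneg _).trans (hr 0)
    have hKσ : Kc d * σ ≤ 1 / 2 := by
      have hK := Kc_ge hd
      have e1 : Kc d * σ * 2 ≤ 20 * Kc d ^ 2 * Real.exp w ^ 10 * σ := by
        have e2 : 1 ≤ Real.exp w ^ 10 := one_le_pow₀ (Real.one_le_exp hw0.le)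
        have e3 : Kc d * 2 ≤ 20 * Kc d ^ 2 * Real.exp w ^ 10 := by
          calc Kc d * 2 ≤ Kc d * (20 * Kc d) := by
                gcongr
                linarith
            _ = 20 * Kc d ^ 2 * 1 := by ring
            _ ≤ _ := by gcongr
        calc Kc d * σ * 2 = Kc d * 2 * σ := by ring
          _ ≤ _ := by gcongr
      linarith
    have h3 := orbit_lip hd hO hbd (hpσ q hq) (hsσ s hs) k1 h1 h2
      (κ := Kc d * ‖m‖ * r) (by
        intro z hz
        have f1 := (Gs_near hd (hpσ q hq) (hsσ s hs) hKσ (hz.trans (by norm_num))).2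
        have f2 : 1 / 2 ≤ ‖Vs d s z‖ := by
          have := norm_sub_norm_le (1 : ℂ) (1 - Vs d s z)
          rw [norm_one, sub_sub_cancel, norm_sub_rev] at this
          linarith
        have f3 : Gs d (pp d m q) s z - Gs d (pp d m q') s z =
            (Us d (fun i => pp d m q i - pp d m q' i) z - z ^ d) / Vs d s z := by
          unfold Gs Us
          rw [← sub_div]
          congr 1
          rw [add_sub_add_left_eq_sub, add_sub_cancel_left, ← Finset.sum_sub_distrib]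
          exact Finset.sum_congr rfl fun i _ => by ring
        have f4 : ∀ i, ‖pp d m q i - pp d m q' i‖ ≤ ‖m‖ * r := by
          intro i
          unfold pp
          split_ifs with hi
          · rw [← sub_mul, norm_mul, norm_pow, mul_comm]
            have h1 : ‖m‖ ^ (d - i) ≤ ‖m‖ := by
              calc ‖m‖ ^ (d - i) ≤ ‖m‖ ^ 1 :=
                    pow_le_pow_of_le_one (norm_nonneg m) hm11 (by omega)
                _ = ‖m‖ := pow_one _
            gcongr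
            exact hr i
          · rw [sub_zero, norm_zero]
            positivity
        have f5 := Us_near (d := d) f4 (show (1 : ℝ) ≤ 3 by norm_num) hz
        rw [f3, norm_div, div_le_iff₀ (by linarith)]
        have f6 : (d : ℝ) * (‖m‖ * r * 3 ^ d) ≤ Kc d * ‖m‖ * r * (1 / 2) := by
          have g1 : (3 : ℝ) ^ d ≤ 5 ^ d := by gcongr; norm_num
          have g2 : (1 : ℝ) ≤ 5 ^ d := one_le_pow₀ (by norm_num)
          have g3 : (d : ℝ) * 3 ^ d ≤ 2 * d * d * 5 ^ d * 5 ^ d := by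
            calc (d : ℝ) * 3 ^ d ≤ d * 5 ^ d := by gcongr
              _ = (1 * d * 1 * 5 ^ d * 1) := by ring
              _ ≤ (2 * d * d * 5 ^ d * 5 ^ d) := by
                  gcongr
                  · norm_num
                  · linarith
          unfold Kc
          calc (d : ℝ) * (‖m‖ * r * 3 ^ d) = d * 3 ^ d * (‖m‖ * r) := by ring
            _ ≤ (2 * d * d * 5 ^ d * 5 ^ d) * (‖m‖ * r) :=
                mul_le_mul_of_nonneg_right g3 (by positivity)
            _ = _ := by ring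
        have f7 : Kc d * ‖m‖ * r * (1 / 2) ≤ Kc d * ‖m‖ * r * ‖Vs d s z‖ := by
          have hK := Kc_ge hd
          gcongr
        linarith)
    refine h3.trans ?_
    have hK := Kc_ge hd
    have hKw : 2 * Kc d ≤ Real.exp w := by
      have e1 : 1 * Kc d ≤ Kc d * Kc d := by gcongr
      have e2 : (2 : ℝ) * Kc d ^ 2 ≤ 100 * d * Kc d ^ 2 := by
        gcongr
        linarith
      nlinarith
    calc 2 * Real.exp w ^ 3 * (Kc d * ‖m‖ * r) = 2 * Kc d * (Real.exp w ^ 3 * ‖m‖) * r := by ring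
      _ ≤ Real.exp w * (Real.exp w ^ 3 * Real.exp (-(400 * w))) * r := by gcongr
      _ = Real.exp (w + 3 * w + -(400 * w)) * r := by
          rw [Real.exp_add (w + 3 * w), Real.exp_add w, ← Real.exp_nat_mul]
          push_cast
          ring
      _ ≤ _ := by
          gcongr
          linarith
  intro q s hq hs
  have hp' := hpσ q hq
  have hs' := hsσ s hs
  obtain ⟨b, X, hb, hX0, hXN, hXs, hXc⟩ := orbit hd hO hbd hzN hp' hs' k1
  refine ⟨b, ⟨X, hX0, hXN, hXs, hXc⟩, hb.trans k7, ?_⟩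
  intro t z ht hz
  have hmz : ‖m * z‖ ≤ 1 := by
    rw [norm_mul]
    calc ‖m‖ * ‖z‖ ≤ Real.exp (-(400 * w)) * Real.exp a := by gcongr
      _ = Real.exp (-(400 * w) + a) := (Real.exp_add _ _).symm
      _ ≤ Real.exp 0 := Real.exp_le_exp.2 (by linarith)
      _ = 1 := Real.exp_zero
  have hU : ‖Us d q z‖ ≤ Real.exp (4 * w + a) / 4 := by
    have h1 : ‖Us d q z - z ^ d‖ ≤ d * (Real.exp a * Real.exp a ^ d) :=
      Us_near hq (Real.one_le_exp ha0.le) hz
    have h2 : ‖z ^ d‖ ≤ Real.exp a ^ d := by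
      rw [norm_pow]
      gcongr
    have h3 := norm_le_norm_add_norm_sub' (Us d q z) (z ^ d)
    linarith
  have hl' : l * (Dp (aa d c) N * ∑ i ∈ Finset.range (N + 1), (Dp (aa d c) i)⁻¹) = m := by
    rw [← hder]
    exact hl
  have hm' : m ^ (d - 1) * Dp (aa d c) N = 1 := by rw [hDp]; exact hm
  obtain ⟨r1, r3, r2⟩ := ren hd hO hbd hp' hs' k1 hX0 hXN hXs hXc hm' hl' (q := q) (by
    intro i hi
    rw [Finset.mem_Ico] at hi
    unfold pp
    rw [if_pos hi.2]) ht hmz hU k2 k4 k5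
  rw [hN]
  refine ⟨r1, ?_, r2.trans ?_⟩
  · intro j hj1 hj2
    obtain ⟨i, rfl⟩ : ∃ i, j = i + 1 := ⟨j - 1, by omega⟩
    have h1 := r3 i (by omega)
    have h2 := h1.trans k8
    have h3 := hzlow i (by omega)
    have h4 := norm_le_norm_add_norm_sub (( gg d m q s (c + (b + l * t)))^[i + 1] (m * z)) (zz d c i)
    have h5 : ‖m‖ * Real.exp a ≤ Real.exp (-(290 * w)) := by
      calc ‖m‖ * Real.exp a ≤ Real.exp (-(400 * w)) * Real.exp a := by gcongr
        _ = Real.exp (-(400 * w) + a) := (Real.exp_add _ _).symm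
        _ ≤ _ := Real.exp_le_exp.2 (by linarith)
    have h6 : Real.exp (-(280 * w)) < Real.exp (-(2 * w)) := Real.exp_lt_exp.2 (by linarith)
    have h7 : ‖(gg d m q s (c + (b + l * t)))^[i + 1] (m * z) - zz d c i‖ ≤
      Real.exp (-(290 * w)) := h2
    linarith
  rw [mul_assoc]
  gcongr

end Pool.Agent.N772.CL
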